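import Pool.Agent.helper55.FkDefs

/-!
Circulant graphs giving upper bounds for `f(4)`, `f(5)`, `f(6)`, `f(7)`.
-/

set_option autoImplicit false
set_option maxRecDepth 100000

namespace Pool.Agent.helper55.Fk

lemma exists_sorted {n : ℕ} (T : Finset (Fin n)) {m : ℕ} (h : m ≤ T.card) :
    ∃ e : Fin m → Fin n, StrictMono e ∧ ∀ i, e i ∈ T := by
  obtain ⟨U, hU, hc⟩ := Finset.exists_subset_card_eq h
  exact ⟨U.orderEmbOfFin hc, (U.orderEmbOfFin hc).strictMono,
    fun i => hU (Finset.orderEmbOfFin_mem U hc i)⟩

/-- adjacency of the circulant graph on `Fin n` with connection set `S` -/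
def ca {n : ℕ} (S : List ℕ) (i j : Fin n) : Bool := S.contains ((j.val + n - i.val) % n)

/-- circulant graph with symmetric connection set -/
def circ (n : ℕ) (S : List ℕ) (hs : ∀ i j : Fin n, ca S i j = true → ca S j i = true)
    (hl : ∀ i : Fin n, ca S i i = false) : SimpleGraph (Fin n) where
  Adj i j := ca S i j = true
  symm := ⟨hs⟩
  loopless := ⟨fun i h => by rw [hl i] at h; exact absurd h (by simp)⟩

instance (n : ℕ) (S : List ℕ) (hs : ∀ i j : Fin n, ca S i j = true → ca S j i = true)
    (hl : ∀ i : Fin n, ca S i i = false) : DecidableRel (circ n S hs hl).Adj := fun i j => by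
  unfold circ; infer_instance

/-- `C_13(1,5)` -/
def G4 : SimpleGraph (Fin 13) := circ 13 [1, 5, 8, 12] (by decide) (by decide)

instance : DecidableRel G4.Adj := fun i j => by unfold G4; infer_instance

theorem f4 : Good 4 4 := by
  apply f_le G4 (by norm_num)
  · apply not_colorable_of_card (a := 4)
    · intro T hT
      by_contra hcon
      push Not at hcon
      obtain ⟨e, he, hm⟩ := exists_sorted T (m := 5) hcon
      have key : ∀ a b : Fin 13, a < b → ca [1, 5, 8, 12] a b = false → ∀ c, b < c →
          ca [1, 5, 8, 12] a c = false → ca [1, 5, 8, 12] b c = false → ∀ d, c < d →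
          ca [1, 5, 8, 12] a d = false → ca [1, 5, 8, 12] b d = false →
          ca [1, 5, 8, 12] c d = false → ∀ e, d < e → ca [1, 5, 8, 12] a e = false →
          ca [1, 5, 8, 12] b e = false → ca [1, 5, 8, 12] c e = false →
          ca [1, 5, 8, 12] d e = false → False := by decide
      have hno : ∀ i j : Fin 5, ca [1, 5, 8, 12] (e i) (e j) = false := fun i j => by
        have := hT (e i) (hm i) (e j) (hm j)
        simpa [G4, circ] using this
      exact key (e 0) (e 1) (he (by decide)) (hno _ _) (e 2) (he (by decide)) (hno _ _) (hno _ _)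
        (e 3) (he (by decide)) (hno _ _) (hno _ _) (hno _ _) (e 4) (he (by decide)) (hno _ _)
        (hno _ _) (hno _ _) (hno _ _)
    · simp
  · intro s hs
    rw [SimpleGraph.isNClique_iff, SimpleGraph.isClique_iff] at hs
    obtain ⟨h1, h2⟩ := hs
    obtain ⟨e, he, hm⟩ := exists_sorted s (m := 3) (by omega)
    have key : ∀ a b : Fin 13, a < b → ca [1, 5, 8, 12] a b = true → ∀ c, b < c →
        ca [1, 5, 8, 12] a c = true → ca [1, 5, 8, 12] b c = true → False := by decide
    have hyes : ∀ i j : Fin 3, i < j → ca [1, 5, 8, 12] (e i) (e j) = true := fun i j hij =>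
      h1 (hm i) (hm j) (he hij).ne
    exact key (e 0) (e 1) (he (by decide)) (hyes _ _ (by decide)) (e 2) (he (by decide))
      (hyes _ _ (by decide)) (hyes _ _ (by decide))
  · decide

/-- `C_13(2,4,5)` -/
def G5 : SimpleGraph (Fin 13) := circ 13 [2, 4, 5, 8, 9, 11] (by decide) (by decide)

instance : DecidableRel G5.Adj := fun i j => by unfold G5; infer_instance

theorem f5 : Good 5 6 := by
  apply f_le G5 (by norm_num)
  · apply not_colorable_of_card (a := 3)
    · intro T hT
      by_contra hcon
      push Not at hcon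
      obtain ⟨e, he, hm⟩ := exists_sorted T (m := 4) hcon
      have key : ∀ a b : Fin 13, a < b → ca [2, 4, 5, 8, 9, 11] a b = false → ∀ c, b < c →
          ca [2, 4, 5, 8, 9, 11] a c = false → ca [2, 4, 5, 8, 9, 11] b c = false → ∀ d, c < d →
          ca [2, 4, 5, 8, 9, 11] a d = false → ca [2, 4, 5, 8, 9, 11] b d = false →
          ca [2, 4, 5, 8, 9, 11] c d = false → False := by decide
      have hno : ∀ i j : Fin 4, ca [2, 4, 5, 8, 9, 11] (e i) (e j) = false := fun i j => by
        have := hT (e i) (hm i) (e j) (hm j)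
        simpa [G5, circ] using this
      exact key (e 0) (e 1) (he (by decide)) (hno _ _) (e 2) (he (by decide)) (hno _ _) (hno _ _)
        (e 3) (he (by decide)) (hno _ _) (hno _ _) (hno _ _)
    · simp
  · intro s hs
    rw [SimpleGraph.isNClique_iff, SimpleGraph.isClique_iff] at hs
    obtain ⟨h1, h2⟩ := hs
    obtain ⟨e, he, hm⟩ := exists_sorted s (m := 4) (by omega)
    have key : ∀ a b : Fin 13, a < b → ca [2, 4, 5, 8, 9, 11] a b = true → ∀ c, b < c →
        ca [2, 4, 5, 8, 9, 11] a c = true → ca [2, 4, 5, 8, 9, 11] b c = true → ∀ d, c < d →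
        ca [2, 4, 5, 8, 9, 11] a d = true → ca [2, 4, 5, 8, 9, 11] b d = true →
        ca [2, 4, 5, 8, 9, 11] c d = true → False := by decide
    have hyes : ∀ i j : Fin 4, i < j → ca [2, 4, 5, 8, 9, 11] (e i) (e j) = true := fun i j hij =>
      h1 (hm i) (hm j) (he hij).ne
    exact key (e 0) (e 1) (he (by decide)) (hyes _ _ (by decide)) (e 2) (he (by decide))
      (hyes _ _ (by decide)) (hyes _ _ (by decide)) (e 3) (he (by decide)) (hyes _ _ (by decide))
      (hyes _ _ (by decide)) (hyes _ _ (by decide))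
  · decide

/-- `C_11(1,2,3)` -/
def G6 : SimpleGraph (Fin 11) := circ 11 [1, 2, 3, 8, 9, 10] (by decide) (by decide)

instance : DecidableRel G6.Adj := fun i j => by unfold G6; infer_instance

theorem f6 : Good 6 6 := by
  apply f_le G6 (by norm_num)
  · apply not_colorable_of_card (a := 2)
    · intro T hT
      by_contra hcon
      push Not at hcon
      obtain ⟨e, he, hm⟩ := exists_sorted T (m := 3) hcon
      have key : ∀ a b : Fin 11, a < b → ca [1, 2, 3, 8, 9, 10] a b = false → ∀ c, b < c →
          ca [1, 2, 3, 8, 9, 10] a c = false → ca [1, 2, 3, 8, 9, 10] b c = false → False := by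
        decide
      have hno : ∀ i j : Fin 3, ca [1, 2, 3, 8, 9, 10] (e i) (e j) = false := fun i j => by
        have := hT (e i) (hm i) (e j) (hm j)
        simpa [G6, circ] using this
      exact key (e 0) (e 1) (he (by decide)) (hno _ _) (e 2) (he (by decide)) (hno _ _) (hno _ _)
    · simp
  · intro s hs
    rw [SimpleGraph.isNClique_iff, SimpleGraph.isClique_iff] at hs
    obtain ⟨h1, h2⟩ := hs
    obtain ⟨e, he, hm⟩ := exists_sorted s (m := 5) (by omega)
    have key : ∀ a b : Fin 11, a < b → ca [1, 2, 3, 8, 9, 10] a b = true → ∀ c, b < c →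
        ca [1, 2, 3, 8, 9, 10] a c = true → ca [1, 2, 3, 8, 9, 10] b c = true → ∀ d, c < d →
        ca [1, 2, 3, 8, 9, 10] a d = true → ca [1, 2, 3, 8, 9, 10] b d = true →
        ca [1, 2, 3, 8, 9, 10] c d = true → ∀ e, d < e → ca [1, 2, 3, 8, 9, 10] a e = true →
        ca [1, 2, 3, 8, 9, 10] b e = true → ca [1, 2, 3, 8, 9, 10] c e = true →
        ca [1, 2, 3, 8, 9, 10] d e = true → False := by decide
    have hyes : ∀ i j : Fin 5, i < j → ca [1, 2, 3, 8, 9, 10] (e i) (e j) = true := fun i j hij =>
      h1 (hm i) (hm j) (he hij).ne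
    exact key (e 0) (e 1) (he (by decide)) (hyes _ _ (by decide)) (e 2) (he (by decide))
      (hyes _ _ (by decide)) (hyes _ _ (by decide)) (e 3) (he (by decide)) (hyes _ _ (by decide))
      (hyes _ _ (by decide)) (hyes _ _ (by decide)) (e 4) (he (by decide)) (hyes _ _ (by decide))
      (hyes _ _ (by decide)) (hyes _ _ (by decide)) (hyes _ _ (by decide))
  · decide

/-- `C_13(2,3,4,6)` -/
def G7 : SimpleGraph (Fin 13) := circ 13 [2, 3, 4, 6, 7, 9, 10, 11] (by decide) (by decide)

instance : DecidableRel G7.Adj := fun i j => by unfold G7; infer_instance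

theorem f7 : Good 7 8 := by
  apply f_le G7 (by norm_num)
  · apply not_colorable_of_card (a := 2)
    · intro T hT
      by_contra hcon
      push Not at hcon
      obtain ⟨e, he, hm⟩ := exists_sorted T (m := 3) hcon
      have key : ∀ a b : Fin 13, a < b → ca [2, 3, 4, 6, 7, 9, 10, 11] a b = false → ∀ c, b < c →
          ca [2, 3, 4, 6, 7, 9, 10, 11] a c = false → ca [2, 3, 4, 6, 7, 9, 10, 11] b c = false →
          False := by
        decide
      have hno : ∀ i j : Fin 3, ca [2, 3, 4, 6, 7, 9, 10, 11] (e i) (e j) = false := fun i j => by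
        have := hT (e i) (hm i) (e j) (hm j)
        simpa [G7, circ] using this
      exact key (e 0) (e 1) (he (by decide)) (hno _ _) (e 2) (he (by decide)) (hno _ _) (hno _ _)
    · simp
  · intro s hs
    rw [SimpleGraph.isNClique_iff, SimpleGraph.isClique_iff] at hs
    obtain ⟨h1, h2⟩ := hs
    obtain ⟨e, he, hm⟩ := exists_sorted s (m := 5) (by omega)
    have key : ∀ a b : Fin 13, a < b → ca [2, 3, 4, 6, 7, 9, 10, 11] a b = true → ∀ c, b < c →
        ca [2, 3, 4, 6, 7, 9, 10, 11] a c = true → ca [2, 3, 4, 6, 7, 9, 10, 11] b c = true →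
        ∀ d, c < d →
        ca [2, 3, 4, 6, 7, 9, 10, 11] a d = true → ca [2, 3, 4, 6, 7, 9, 10, 11] b d = true →
        ca [2, 3, 4, 6, 7, 9, 10, 11] c d = true → ∀ e, d < e →
        ca [2, 3, 4, 6, 7, 9, 10, 11] a e = true →
        ca [2, 3, 4, 6, 7, 9, 10, 11] b e = true → ca [2, 3, 4, 6, 7, 9, 10, 11] c e = true →
        ca [2, 3, 4, 6, 7, 9, 10, 11] d e = true → False := by decide
    have hyes : ∀ i j : Fin 5, i < j →
        ca [2, 3, 4, 6, 7, 9, 10, 11] (e i) (e j) = true := fun i j hij =>
      h1 (hm i) (hm j) (he hij).ne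
    exact key (e 0) (e 1) (he (by decide)) (hyes _ _ (by decide)) (e 2) (he (by decide))
      (hyes _ _ (by decide)) (hyes _ _ (by decide)) (e 3) (he (by decide)) (hyes _ _ (by decide))
      (hyes _ _ (by decide)) (hyes _ _ (by decide)) (e 4) (he (by decide)) (hyes _ _ (by decide))
      (hyes _ _ (by decide)) (hyes _ _ (by decide)) (hyes _ _ (by decide))
  · decide

end Pool.Agent.helper55.Fk
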