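import Mathlib

set_option autoImplicit false
open MeasureTheory Set

namespace Pool.Agent.helper55.Circle

/-- radial integral -/
lemma lint_r (a b : ℝ) (ha : 0 ≤ a) (hab : a ≤ b) :
    ∫⁻ r in Ico a b, ENNReal.ofReal r = ENNReal.ofReal ((b^2 - a^2)/2) := by
  rw [← ofReal_integral_eq_lintegral_ofReal]
  · congr 1
    rw [integral_Ico_eq_integral_Ioc, ← intervalIntegral.integral_of_le hab, integral_id]
  · exact (continuous_id.integrableOn_Icc (a := a) (b := b)).mono_set Ico_subset_Icc_self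
  · refine (ae_restrict_iff' measurableSet_Ico).2 (Filter.Eventually.of_forall ?_)
    intro x hx
    exact le_trans ha hx.1

lemma vol_wedge_complex (a b θ : ℝ) (ha : 0 < a) (hab : a ≤ b) (hθ0 : 0 ≤ θ) (hθ : θ ≤ Real.pi) :
    volume {z : ℂ | a ≤ ‖z‖^2 ∧ ‖z‖^2 < b ∧ ‖z‖ * Real.cos θ < z.re}
      = ENNReal.ofReal (θ * (b - a)) := by
  set S : Set ℂ := {z : ℂ | a ≤ ‖z‖^2 ∧ ‖z‖^2 < b ∧ ‖z‖ * Real.cos θ < z.re} with hS
  have hSm : MeasurableSet S := by
    have m1 : Measurable (fun z : ℂ => ‖z‖^2) := by fun_prop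
    have m2 : Measurable (fun z : ℂ => ‖z‖ * Real.cos θ) := by fun_prop
    have m3 : Measurable (fun z : ℂ => z.re) := by fun_prop
    exact (measurableSet_le measurable_const m1).inter
      ((measurableSet_lt m1 measurable_const).inter (measurableSet_lt m2 m3))
  have h1 : volume S = ∫⁻ p : ℂ, S.indicator 1 p := by
    rw [lintegral_indicator_one hSm]
  rw [h1, ← Complex.lintegral_comp_polarCoord_symm]
  have hsa : 0 < √a := Real.sqrt_pos.2 ha
  set T : Set (ℝ × ℝ) := (Ico (√a) (√b)) ×ˢ (Ioo (-θ) θ) with hT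
  have hTm : MeasurableSet T := measurableSet_Ico.prod measurableSet_Ioo
  have hTt : T ⊆ polarCoord.target := by
    rintro ⟨r, φ⟩ ⟨hr, hφ⟩
    simp only [polarCoord_target, mem_prod, mem_Ioi, mem_Ioo]
    exact ⟨lt_of_lt_of_le hsa hr.1, by linarith [hφ.1], by linarith [hφ.2]⟩
  have h2 : ∫⁻ (p : ℝ × ℝ) in polarCoord.target,
      ENNReal.ofReal p.1 • S.indicator 1 (Complex.polarCoord.symm p)
      = ∫⁻ (p : ℝ × ℝ) in polarCoord.target, T.indicator (fun p => ENNReal.ofReal p.1) p := by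
    apply setLIntegral_congr_fun polarCoord.open_target.measurableSet
    rintro ⟨r, φ⟩ hp
    simp only [polarCoord_target, mem_prod, mem_Ioi, mem_Ioo] at hp
    obtain ⟨hr, hφ1, hφ2⟩ := hp
    have hnorm : ‖(Complex.polarCoord.symm (r, φ))‖ = r := by
      rw [Complex.norm_polarCoord_symm]
      exact abs_of_pos hr
    have hre : (Complex.polarCoord.symm (r, φ)).re = r * Real.cos φ := by
      rw [Complex.polarCoord_symm_apply]
      simp [Complex.cos_ofReal_re]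
    have hiff : (Complex.polarCoord.symm (r, φ)) ∈ S ↔ ((r, φ) : ℝ × ℝ) ∈ T := by
      simp only [hS, hT, mem_ofPred_eq, hnorm, hre, mem_prod, mem_Ico, mem_Ioo]
      have e1 : a ≤ r^2 ↔ √a ≤ r := by
        rw [Real.sqrt_le_left hr.le]
      have e2 : r^2 < b ↔ r < √b := by
        rw [Real.lt_sqrt hr.le]
      have e3 : r * Real.cos θ < r * Real.cos φ ↔ (-θ < φ ∧ φ < θ) := by
        rw [mul_lt_mul_iff_right₀ hr, ← Real.cos_abs φ, ← abs_lt]
        constructor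
        · intro h
          by_contra hcon
          push Not at hcon
          have := Real.cos_le_cos_of_nonneg_of_le_pi hθ0 (by rw [abs_le]; constructor <;> linarith) hcon
          linarith
        · intro h
          exact Real.cos_lt_cos_of_nonneg_of_le_pi (abs_nonneg φ) hθ h
      rw [e1, e2, e3, and_assoc]
    show ENNReal.ofReal r • S.indicator 1 (Complex.polarCoord.symm (r, φ)) =
      T.indicator (fun p => ENNReal.ofReal p.1) (r, φ)
    by_cases hm : ((r, φ) : ℝ × ℝ) ∈ T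
    · rw [indicator_of_mem hm, indicator_of_mem (hiff.2 hm)]
      simp
    · rw [indicator_of_notMem hm, indicator_of_notMem (fun h => hm (hiff.1 h))]
      simp
  rw [h2, setLIntegral_indicator hTm, inter_eq_left.2 hTt, hT]
  rw [Measure.volume_eq_prod, ← Measure.prod_restrict]
  rw [lintegral_prod]
  · simp only [lintegral_const, Measure.restrict_apply MeasurableSet.univ, univ_inter,
      Real.volume_Ioo]
    rw [lintegral_mul_const _ (by fun_prop)]
    rw [lint_r _ _ (Real.sqrt_nonneg a) (Real.sqrt_le_sqrt hab), Real.sq_sqrt ha.le,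
      Real.sq_sqrt (ha.le.trans hab), ← ENNReal.ofReal_mul (by linarith)]
    congr 1
    ring
  · fun_prop

/-- The Euclidean plane. -/
abbrev E : Type := EuclideanSpace ℝ (Fin 2)

lemma exists_iso (e : E) (he : ‖e‖ = 1) : ∃ L : E ≃ₗᵢ[ℝ] ℂ, L e = 1 := by
  let L0 : E ≃ₗᵢ[ℝ] ℂ := Complex.orthonormalBasisOneI.repr.symm
  have hu : ‖L0 e‖ = 1 := by rw [LinearIsometryEquiv.norm_map, he]
  let u : Circle := ⟨L0 e, by simpa [Submonoid.unitSphere] using hu⟩
  refine ⟨L0.trans (rotation u⁻¹), ?_⟩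
  simp only [LinearIsometryEquiv.trans_apply, rotation_apply]
  have : ((u⁻¹ : Circle) : ℂ) * (u : ℂ) = 1 := by
    rw [← Circle.coe_mul]; simp
  exact this

lemma vol_wedge (e : E) (he : ‖e‖ = 1) (a b θ : ℝ) (ha : 0 < a) (hab : a ≤ b) (hθ0 : 0 ≤ θ)
    (hθ : θ ≤ Real.pi) :
    volume {x : E | a ≤ ‖x‖^2 ∧ ‖x‖^2 < b ∧ ‖x‖ * Real.cos θ < inner ℝ e x}
      = ENNReal.ofReal (θ * (b - a)) := by
  obtain ⟨L, hL⟩ := exists_iso e he
  rw [← vol_wedge_complex a b θ ha hab hθ0 hθ]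
  have hpre : {x : E | a ≤ ‖x‖^2 ∧ ‖x‖^2 < b ∧ ‖x‖ * Real.cos θ < inner ℝ e x}
      = L ⁻¹' {z : ℂ | a ≤ ‖z‖^2 ∧ ‖z‖^2 < b ∧ ‖z‖ * Real.cos θ < z.re} := by
    ext x
    have h1 : ‖L x‖ = ‖x‖ := L.norm_map x
    have h2 : inner ℝ e x = (L x).re := by
      rw [← L.inner_map_map e x, hL]
      simp [Complex.inner]
    simp only [mem_ofPred_eq, mem_preimage, h1, h2]
  rw [hpre]
  have hSm : MeasurableSet {z : ℂ | a ≤ ‖z‖^2 ∧ ‖z‖^2 < b ∧ ‖z‖ * Real.cos θ < z.re} := by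
    have m1 : Measurable (fun z : ℂ => ‖z‖^2) := by fun_prop
    have m2 : Measurable (fun z : ℂ => ‖z‖ * Real.cos θ) := by fun_prop
    have m3 : Measurable (fun z : ℂ => z.re) := by fun_prop
    exact (measurableSet_le measurable_const m1).inter
      ((measurableSet_lt m1 measurable_const).inter (measurableSet_lt m2 m3))
  exact L.measurePreserving.measure_preimage hSm.nullMeasurableSet

/-- annulus -/
def Ann (a b : ℝ) : Set E := {x | a ≤ ‖x‖^2 ∧ ‖x‖^2 < b}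

/-- disc or half-plane -/
def Reg (κ t d : ℝ) (e : E) : Set E := {x | κ * ‖x‖^2 + d < 2 * t * inner ℝ e x}

lemma vol_ball (p : E) (r : ℝ) (hr : 0 ≤ r) :
    volume (Metric.ball p r) = ENNReal.ofReal (Real.pi * r^2) := by
  rw [EuclideanSpace.volume_ball_fin_two, ENNReal.ofReal_mul Real.pi_pos.le, mul_comm,
    ENNReal.ofReal_pow hr]

lemma meas_Ann (a b : ℝ) : MeasurableSet (Ann a b) := by
  have m1 : Measurable (fun z : E => ‖z‖^2) := by fun_prop
  exact (measurableSet_le measurable_const m1).inter (measurableSet_lt m1 measurable_const)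

lemma vol_Ann (a b : ℝ) (ha : 0 ≤ a) (hab : a ≤ b) :
    volume (Ann a b) = ENNReal.ofReal (Real.pi * (b - a)) := by
  have h1 : Ann a b = Metric.ball (0 : E) (√b) \ Metric.ball (0 : E) (√a) := by
    ext x
    simp only [Ann, mem_ofPred_eq, mem_sdiff, mem_ball_zero_iff, not_lt]
    rw [Real.lt_sqrt (norm_nonneg x), Real.sqrt_le_left (norm_nonneg x), and_comm]
  rw [h1, measure_sdiff (Metric.ball_subset_ball (Real.sqrt_le_sqrt hab))
    measurableSet_ball.nullMeasurableSet (measure_ball_lt_top).ne,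
    vol_ball _ _ (Real.sqrt_nonneg _), vol_ball _ _ (Real.sqrt_nonneg _),
    Real.sq_sqrt ha, Real.sq_sqrt (ha.trans hab), ← ENNReal.ofReal_sub _ (by positivity)]
  congr 1
  ring

lemma ball_eq_Reg (p : E) (r : ℝ) (hr : 0 < r) :
    ∃ (κ t d : ℝ) (e : E), 0 ≤ κ ∧ 0 ≤ t ∧ ‖e‖ = 1 ∧ Metric.ball p r = Reg κ t d e := by
  have key : ∀ (t : ℝ) (e : E), p = t • e →
      Metric.ball p r = Reg 1 t (‖p‖^2 - r^2) e := by
    intro t e hpe
    ext x
    simp only [Reg, mem_ofPred_eq, Metric.mem_ball, dist_eq_norm]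
    have h1 : ‖x - p‖^2 = ‖x‖^2 - 2 * inner ℝ x p + ‖p‖^2 := norm_sub_sq_real x p
    have h2 : inner ℝ x p = t * inner ℝ e x := by
      rw [real_inner_comm, hpe, real_inner_smul_left]
    have h3 : ‖x - p‖ < r ↔ ‖x - p‖^2 < r^2 := by
      rw [sq_lt_sq₀ (norm_nonneg _) hr.le]
    rw [h3, h1, h2]
    constructor <;> intro h <;> linarith
  by_cases hp : p = 0
  · refine ⟨1, 0, ‖p‖^2 - r^2, EuclideanSpace.single 0 1, by norm_num, le_refl _, by simp, ?_⟩
    apply key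
    simp [hp]
  · have hp' : ‖p‖ ≠ 0 := norm_ne_zero_iff.2 hp
    refine ⟨1, ‖p‖, ‖p‖^2 - r^2, (‖p‖⁻¹) • p, by norm_num, norm_nonneg _, ?_, ?_⟩
    · rw [norm_smul, norm_inv, norm_norm, inv_mul_cancel₀ hp']
    · apply key
      rw [smul_smul, mul_inv_cancel₀ hp', one_smul]

lemma half_eq_Reg (v : E) (c : ℝ) (hv : v ≠ 0) :
    ∃ (κ t d : ℝ) (e : E), 0 ≤ κ ∧ 0 ≤ t ∧ ‖e‖ = 1 ∧
      {x : E | inner ℝ v x < c} = Reg κ t d e := by
  have hp' : ‖v‖ ≠ 0 := norm_ne_zero_iff.2 hv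
  refine ⟨0, ‖v‖/2, -c, -((‖v‖⁻¹) • v), le_refl _, by positivity, ?_, ?_⟩
  · rw [norm_neg, norm_smul, norm_inv, norm_norm, inv_mul_cancel₀ hp']
  · ext x
    simp only [Reg, mem_ofPred_eq]
    rw [inner_neg_left, real_inner_smul_left]
    have : 2 * (‖v‖/2) * -(‖v‖⁻¹ * inner ℝ v x) = - inner ℝ v x := by
      field_simp
    rw [this]
    constructor <;> intro h <;> linarith

lemma meas_Reg (κ t d : ℝ) (e : E) : MeasurableSet (Reg κ t d e) := by
  have m1 : Measurable (fun z : E => κ * ‖z‖^2 + d) := by fun_prop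
  have m2 : Measurable (fun z : E => 2 * t * inner ℝ e z) := by fun_prop
  exact measurableSet_lt m1 m2

/-- If the region contains an arc of half-angle at least `3π/8` of each circle of the annulus. -/
lemma W1 (κ t d : ℝ) (e : E) (he : ‖e‖ = 1) (ht : 0 ≤ t) (a b : ℝ) (ha : 0 < a) (hab : a ≤ b)
    (h : ∀ s : ℝ, 0 < s → a ≤ s^2 → s^2 < b → κ * s^2 + d < 2 * t * (s/4)) :
    ENNReal.ofReal (3 * Real.pi / 8 * (b - a)) ≤ volume (Ann a b ∩ Reg κ t d e) := by
  rw [← vol_wedge e he a b (3 * Real.pi / 8) ha hab (by positivity) (by linarith [Real.pi_pos])]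
  apply measure_mono
  rintro x ⟨h1, h2, h3⟩
  refine ⟨⟨h1, h2⟩, ?_⟩
  simp only [Reg, mem_ofPred_eq]
  have hx : 0 < ‖x‖ := by
    rcases (norm_nonneg x).lt_or_eq with h0 | h0
    · exact h0
    · rw [← h0] at h1; norm_num at h1; linarith
  have hc : (1/4 : ℝ) ≤ Real.cos (3 * Real.pi / 8) := by
    have e1 : 3 * Real.pi / 8 = Real.pi / 2 - Real.pi / 8 := by ring
    rw [e1, Real.cos_pi_div_two_sub]
    have := Real.mul_le_sin (x := Real.pi / 8) (by positivity) (by linarith [Real.pi_pos])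
    have e2 : 2 / Real.pi * (Real.pi / 8) = 1/4 := by field_simp; norm_num
    linarith
  have h4 := h ‖x‖ hx h1 h2
  have h5 : ‖x‖ * (1/4) ≤ ‖x‖ * Real.cos (3 * Real.pi / 8) := by gcongr
  have h6 : ‖x‖ / 4 ≤ inner ℝ e x := by linarith
  have h7 : 2 * t * (‖x‖/4) ≤ 2 * t * inner ℝ e x := by gcongr
  linarith

/-- If the region's part of the annulus has more than `49/100` of its area, it contains a point
nearly orthogonal to (or behind) the direction `e`. -/
lemma W2 (κ t d : ℝ) (e : E) (he : ‖e‖ = 1) (a b : ℝ) (ha : 0 < a) (hab : a ≤ b)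
    (h : ENNReal.ofReal (49 / 100 * Real.pi * (b - a)) < volume (Ann a b ∩ Reg κ t d e)) :
    ∃ v ∈ Ann a b ∩ Reg κ t d e, inner ℝ e v ≤ ‖v‖ / 30 := by
  by_contra hcon
  push Not at hcon
  have hsub : Ann a b ∩ Reg κ t d e ⊆
      {x : E | a ≤ ‖x‖^2 ∧ ‖x‖^2 < b ∧ ‖x‖ * Real.cos (49 / 100 * Real.pi) < inner ℝ e x} := by
    rintro x hx
    have h1 := hcon x hx
    refine ⟨hx.1.1, hx.1.2, ?_⟩
    have e1 : 49 / 100 * Real.pi = Real.pi / 2 - Real.pi / 100 := by ring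
    rw [e1, Real.cos_pi_div_two_sub]
    have h2 : Real.sin (Real.pi / 100) ≤ 1/30 := by
      have := Real.sin_le (x := Real.pi / 100) (by positivity)
      have := Real.pi_lt_d2
      linarith
    have h3 : ‖x‖ * Real.sin (Real.pi / 100) ≤ ‖x‖ * (1/30) := by gcongr
    linarith
  have := measure_mono (μ := volume) hsub
  rw [vol_wedge e he a b (49 / 100 * Real.pi) ha hab (by positivity) (by linarith [Real.pi_pos])]
    at this
  exact absurd h (not_lt.2 this)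


lemma caseA {κ t d s v w : ℝ} (hκ : 0 ≤ κ) (ht : 0 ≤ t) (hs : 0 < s)
    (hsv : s ≤ v) (hv2 : v ≤ 7.5 * s) (hw : w ≤ v/30) (h : κ*v^2+d < 2*t*w) :
    κ*s^2+d < 2*t*(s/4) := by
  have h1 : κ * s^2 ≤ κ * v^2 := by gcongr
  have h2 : 2*t*w ≤ 2*t*(s/4) := by
    apply mul_le_mul_of_nonneg_left _ (by linarith)
    linarith
  linarith

lemma caseB {κ t d s v y iv iy : ℝ} (hκ : 0 ≤ κ) (ht : 0 ≤ t) (hs : 0 < s) (hy0 : 0 ≤ y)
    (hsv : s ≤ v) (hiy : iy ≤ y) (hiv : iv ≤ v) (hyv : y + s^2 / v ≤ s / 4)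
    (h1 : κ*y^2+d < 2*t*iy) (h2 : κ*v^2+d < 2*t*iv) :
    κ*s^2+d < 2*t*(s/4) := by
  have hv : 0 < v := lt_of_lt_of_le hs hsv
  set μ := s^2/v^2 with hμ
  have hμ0 : 0 < μ := by positivity
  have hμ1 : μ ≤ 1 := by
    rw [hμ, div_le_one (by positivity)]
    gcongr
  have e1 : μ * v^2 = s^2 := by rw [hμ]; field_simp
  have e2 : μ * v = s^2 / v := by rw [hμ]; field_simp
  have a1 : (1-μ) * (κ*y^2+d) ≤ (1-μ) * (2*t*y) := by
    apply mul_le_mul_of_nonneg_left _ (by linarith)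
    have : 2*t*iy ≤ 2*t*y := by gcongr
    linarith
  have a2 : μ * (κ*v^2+d) < μ * (2*t*v) := by
    apply mul_lt_mul_of_pos_left _ hμ0
    have : 2*t*iv ≤ 2*t*v := by gcongr
    linarith
  have a3 : 0 ≤ (1-μ) * (κ*y^2) := mul_nonneg (by linarith) (by positivity)
  have a4 : κ * (μ * v^2) = κ * s^2 := by rw [e1]
  have a5 : 2*t*((1-μ)*y + μ*v) ≤ 2*t*(s/4) := by
    apply mul_le_mul_of_nonneg_left _ (by linarith)
    rw [e2]
    have : 0 ≤ μ * y := by positivity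
    linarith
  nlinarith [a1, a2, a3, a4, a5]

lemma caseC {κ t d ε h n θ : ℝ} {e y y' z p p' q : E} (he : ‖e‖ = 1) (hκ : 0 ≤ κ) (ht : 0 ≤ t)
    (hε : 0 < ε) (hε1 : ε ≤ 1/100) (hn : 1 ≤ n) (hθ : θ = 1/(2*n)) (hpp : ‖p - p'‖ = 2*n)
    (hq : q = (1-θ) • p + θ • p')
    (hy : ‖y - p‖ < ε) (hy' : ‖y' - p'‖ < ε) (hz : ‖z - q‖ < ε)
    (hh : 0 ≤ h) (hyh : ‖y‖ ≤ h) (hyh' : ‖y'‖ ≤ h) (hzh : ‖z‖ ≤ h) (hεh : 4 * ε * h ≤ 1/10)
    (h1 : κ*‖y‖^2+d < 2*t*inner ℝ e y) (h2 : κ*‖y'‖^2+d < 2*t*inner ℝ e y')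
    (h3 : 2*t*inner ℝ e z ≤ κ*‖z‖^2+d) : κ ≤ 8 * t * ε := by
  have hθ0 : 0 < θ := by rw [hθ]; positivity
  have hθ1 : θ ≤ 1/2 := by
    rw [hθ]
    rw [div_le_div_iff₀ (by positivity) (by norm_num)]
    linarith
  set w : E := (1-θ) • y + θ • y' with hw
  have hwq : w - q = (1-θ) • (y - p) + θ • (y' - p') := by
    rw [hw, hq]; module
  have hwqn : ‖w - q‖ < ε := by
    rw [hwq]
    calc ‖(1-θ) • (y - p) + θ • (y' - p')‖ ≤ ‖(1-θ) • (y - p)‖ + ‖θ • (y' - p')‖ := norm_add_le _ _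
      _ = (1-θ) * ‖y - p‖ + θ * ‖y' - p'‖ := by
        rw [norm_smul, norm_smul, Real.norm_of_nonneg (by linarith), Real.norm_of_nonneg hθ0.le]
      _ < (1-θ) * ε + θ * ε := by
        have b1 : (1-θ) * ‖y - p‖ < (1-θ) * ε := by
          apply mul_lt_mul_of_pos_left hy (by linarith)
        have b2 : θ * ‖y' - p'‖ ≤ θ * ε := by
          apply mul_le_mul_of_nonneg_left hy'.le hθ0.le
        linarith
      _ = ε := by ring
  have hzw : ‖w - z‖ ≤ 2 * ε := by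
    have : w - z = (w - q) - (z - q) := by abel
    rw [this]
    have := norm_sub_le (w - q) (z - q)
    linarith
  have hwh : ‖w‖ ≤ h := by
    rw [hw]
    calc ‖(1-θ) • y + θ • y'‖ ≤ ‖(1-θ) • y‖ + ‖θ • y'‖ := norm_add_le _ _
      _ = (1-θ) * ‖y‖ + θ * ‖y'‖ := by
        rw [norm_smul, norm_smul, Real.norm_of_nonneg (by linarith), Real.norm_of_nonneg hθ0.le]
      _ ≤ (1-θ) * h + θ * h := by
        have b1 : (1-θ) * ‖y‖ ≤ (1-θ) * h := by
          apply mul_le_mul_of_nonneg_left hyh (by linarith)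
        have b2 : θ * ‖y'‖ ≤ θ * h := by
          apply mul_le_mul_of_nonneg_left hyh' hθ0.le
        linarith
      _ = h := by ring
  -- identity
  have hid : (1-θ) * ‖y‖^2 + θ * ‖y'‖^2 = ‖w‖^2 + θ * (1-θ) * ‖y - y'‖^2 := by
    rw [hw, norm_sub_sq_real, norm_add_sq_real, norm_smul, norm_smul,
      real_inner_smul_left, real_inner_smul_right, Real.norm_of_nonneg (by linarith : (0:ℝ) ≤ 1-θ),
      Real.norm_of_nonneg hθ0.le]
    ring
  have hin : (1-θ) * inner ℝ e y + θ * inner ℝ e y' = inner ℝ e w := by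
    rw [hw, inner_add_right, real_inner_smul_right, real_inner_smul_right]
  have hcomb : κ * (‖w‖^2 + θ * (1-θ) * ‖y - y'‖^2) + d ≤ 2 * t * inner ℝ e w := by
    rw [← hid, ← hin]
    have b1 := mul_le_mul_of_nonneg_left h1.le (by linarith : (0:ℝ) ≤ 1-θ)
    have b2 := mul_le_mul_of_nonneg_left h2.le hθ0.le
    nlinarith [b1, b2]
  have hinw : inner ℝ e w - inner ℝ e z ≤ 2 * ε := by
    rw [← inner_sub_right]
    have := real_inner_le_norm e (w - z)
    rw [he, one_mul] at this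
    linarith
  have hsq : ‖z‖^2 - ‖w‖^2 ≤ 4 * ε * h := by
    have b1 : ‖z‖ - ‖w‖ ≤ 2 * ε := by
      have := norm_sub_norm_le z w
      rw [norm_sub_rev] at this
      linarith
    have b2 : ‖z‖ + ‖w‖ ≤ 2 * h := by linarith
    have b3 : ‖z‖^2 - ‖w‖^2 = (‖z‖ - ‖w‖) * (‖z‖ + ‖w‖) := by ring
    rw [b3]
    rcases le_total (‖z‖ - ‖w‖) 0 with b4 | b4
    · have : (‖z‖ - ‖w‖) * (‖z‖ + ‖w‖) ≤ 0 :=
        mul_nonpos_of_nonpos_of_nonneg b4 (by positivity)
      have : 0 ≤ 4 * ε * h := by positivity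
      linarith
    · calc (‖z‖ - ‖w‖) * (‖z‖ + ‖w‖) ≤ (2 * ε) * (2 * h) := by
            apply mul_le_mul b1 b2 (by positivity) (by positivity)
        _ = 4 * ε * h := by ring
  have hyy : 2 * n - 2 * ε ≤ ‖y - y'‖ := by
    have b1 : ‖p - p'‖ ≤ ‖y - y'‖ + ‖y - p‖ + ‖y' - p'‖ := by
      have : p - p' = (y - y') - (y - p) + (y' - p') := by abel
      rw [this]
      calc ‖(y - y') - (y - p) + (y' - p')‖ ≤ ‖(y - y') - (y - p)‖ + ‖y' - p'‖ := norm_add_le _ _
        _ ≤ _ := by linarith [norm_sub_le (y - y') (y - p)]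
    linarith
  have hbig : (6/10 : ℝ) ≤ θ * (1-θ) * ‖y - y'‖^2 := by
    have b1 : (2 * n - 2 * ε)^2 ≤ ‖y - y'‖^2 := by
      have : 0 ≤ 2 * n - 2 * ε := by linarith
      gcongr
    have b2 : θ * (1-θ) * (2 * n - 2 * ε)^2 ≤ θ * (1-θ) * ‖y - y'‖^2 := by
      apply mul_le_mul_of_nonneg_left b1
      exact mul_nonneg hθ0.le (by linarith)
    have b3 : θ * (1-θ) * (2 * n - 2 * ε)^2 = (2*n-1) * ((n - ε)/n)^2 := by
      rw [hθ]; field_simp
    have b4 : (99/100 : ℝ) ≤ (n - ε)/n := by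
      rw [le_div_iff₀ (by positivity)]
      linarith
    have b5 : (99/100 : ℝ)^2 ≤ ((n - ε)/n)^2 := by gcongr
    have b6 : (6/10 : ℝ) ≤ (2*n-1) * ((n - ε)/n)^2 := by
      calc (6/10 : ℝ) ≤ 1 * (99/100 : ℝ)^2 := by norm_num
        _ ≤ (2*n-1) * ((n - ε)/n)^2 := by
          apply mul_le_mul (by linarith) b5 (by positivity) (by linarith)
    linarith
  -- combine
  have hfin : κ * (θ * (1-θ) * ‖y - y'‖^2 - (‖z‖^2 - ‖w‖^2)) ≤ 2 * t * (2 * ε) := by
    have b1 : 2 * t * (inner ℝ e w - inner ℝ e z) ≤ 2 * t * (2 * ε) := by gcongr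
    nlinarith [hcomb, h3, b1]
  have hfin2 : κ * (1/2) ≤ κ * (θ * (1-θ) * ‖y - y'‖^2 - (‖z‖^2 - ‖w‖^2)) := by
    apply mul_le_mul_of_nonneg_left _ hκ
    linarith
  linarith

lemma caseC' {κ t d s y iy h ε : ℝ} (hκ : 0 ≤ κ) (ht : 0 ≤ t) (hs : 0 < s)
    (hyh : y ≤ h) (hiy : iy ≤ y) (hk : κ ≤ 8*t*ε) (hhs : 2*h + 8*ε*s^2 ≤ s/2)
    (h1 : κ*y^2+d < 2*t*iy) : κ*s^2+d < 2*t*(s/4) := by
  have a1 : κ * s^2 ≤ 8*t*ε*s^2 := by gcongr
  have a2 : 2*t*iy ≤ 2*t*h := by
    apply mul_le_mul_of_nonneg_left _ (by linarith)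
    linarith
  have a3 : 0 ≤ κ*y^2 := by positivity
  have a4 : t*(2*h + 8*ε*s^2) ≤ t*(s/2) := by gcongr
  nlinarith [a1, a2, a3, a4]

/-- unit vector along the first axis -/
noncomputable def e1 : E := EuclideanSpace.single 0 1

lemma norm_e1 : ‖e1‖ = 1 := by simp [e1]

/-- the balls `o_i` -/
noncomputable def oB (ε : ℝ) (i : ℕ) : Set E := Metric.ball ((2 * i : ℝ) • e1) ε
/-- the balls `q_i` -/
noncomputable def qB (ε : ℝ) (i : ℕ) : Set E := Metric.ball ((2 * i + 1 : ℝ) • e1) ε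

lemma norm_smul_e1 (r : ℝ) (hr : 0 ≤ r) : ‖r • e1‖ = r := by
  rw [norm_smul, norm_e1, mul_one, Real.norm_of_nonneg hr]

lemma dist_smul_e1 (r s : ℝ) : dist (r • e1) (s • e1) = |r - s| := by
  rw [dist_eq_norm, ← sub_smul, norm_smul, norm_e1, mul_one, Real.norm_eq_abs]

lemma oB_disj (ε : ℝ) (hε1 : ε ≤ 1/100) (i j : ℕ) (hij : i ≠ j) :
    Disjoint (oB ε i) (oB ε j) := by
  apply Metric.ball_disjoint_ball
  rw [dist_smul_e1]
  have h1 : (1 : ℝ) ≤ |(i:ℝ) - j| := by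
    have h2 : (i:ℤ) - j ≠ 0 := by omega
    have h3 := Int.one_le_abs h2
    have h4 : ((1:ℤ):ℝ) ≤ ((|(i:ℤ) - j| : ℤ) : ℝ) := by exact_mod_cast h3
    simpa using h4
  have h5 : |(2 * i : ℝ) - 2 * j| = 2 * |(i:ℝ) - j| := by
    rw [← mul_sub, abs_mul]; norm_num
  rw [h5]; linarith

lemma qB_disj (ε : ℝ) (hε1 : ε ≤ 1/100) (i j : ℕ) (hij : i ≠ j) :
    Disjoint (qB ε i) (qB ε j) := by
  apply Metric.ball_disjoint_ball
  rw [dist_smul_e1]
  have h1 : (1 : ℝ) ≤ |(i:ℝ) - j| := by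
    have h2 : (i:ℤ) - j ≠ 0 := by omega
    have h3 := Int.one_le_abs h2
    have h4 : ((1:ℤ):ℝ) ≤ ((|(i:ℤ) - j| : ℤ) : ℝ) := by exact_mod_cast h3
    simpa using h4
  have h5 : |(2 * i + 1 : ℝ) - (2 * j + 1)| = 2 * |(i:ℝ) - j| := by
    have : (2 * i + 1 : ℝ) - (2 * j + 1) = 2 * ((i:ℝ) - j) := by ring
    rw [this, abs_mul]; norm_num
  rw [h5]; linarith

/-- the main construction -/
theorem main (k : ℕ) (hk : 3 ≤ k) :
    ∃ A₁ A₂ : Set (EuclideanSpace ℝ (Fin 2)),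
      MeasurableSet A₁ ∧ MeasurableSet A₂ ∧ volume A₁ < ⊤ ∧ volume A₂ < ⊤ ∧
      ∀ S : Set (EuclideanSpace ℝ (Fin 2)),
        ((∃ (p : EuclideanSpace ℝ (Fin 2)) (r : ℝ), 0 < r ∧ S = Metric.ball p r) ∨
         (∃ (v : EuclideanSpace ℝ (Fin 2)) (c : ℝ), v ≠ 0 ∧
            S = {x : EuclideanSpace ℝ (Fin 2) | inner ℝ v x < c})) →
        volume (A₁ ∩ S) = volume A₁ / k → volume A₂ / k < volume (A₂ ∩ S) := by
  set K : ℝ := (k : ℝ) with hK
  have hK3 : 3 ≤ K := by rw [hK]; exact_mod_cast hk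
  set ε : ℝ := 1 / (10000 * K) with hε
  have hε0 : 0 < ε := by positivity
  have hεK : ε * K = 1/10000 := by rw [hε]; field_simp
  have hε1 : ε ≤ 1/100 := by nlinarith
  set m : ℝ := Real.pi * ε^2 with hm
  have hm0 : 0 < m := by positivity
  set ρ : ℝ := 100 * K with hρ
  have hρ0 : 0 < ρ := by positivity
  set U : Set E := Ann (ρ^2) (ρ^2 + 11/4 * ε^2) with hU
  set V : Set E := Ann ((6*ρ)^2) ((6*ρ)^2 + 101/50 * ε^2) with hV
  set O : Set E := ⋃ i ∈ Finset.range (k-2), oB ε i with hO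
  set Q : Set E := ⋃ i ∈ Finset.range (k-3), qB ε i with hQ
  have hvolU : volume U = ENNReal.ofReal (11/4 * m) := by
    rw [hU, vol_Ann _ _ (by positivity) (by nlinarith [hε0])]
    congr 1; rw [hm]; ring
  have hvolV : volume V = ENNReal.ofReal (101/50 * m) := by
    rw [hV, vol_Ann _ _ (by positivity) (by nlinarith [hε0])]
    congr 1; rw [hm]; ring
  have hvoloB : ∀ i, volume (oB ε i) = ENNReal.ofReal m := fun i => vol_ball _ _ hε0.le
  have hvolqB : ∀ i, volume (qB ε i) = ENNReal.ofReal m := fun i => vol_ball _ _ hε0.le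
  have hvolO : volume O = ENNReal.ofReal ((K - 2) * m) := by
    rw [hO, measure_biUnion_finset]
    · simp only [hvoloB, Finset.sum_const, Finset.card_range, nsmul_eq_mul]
      rw [show K - 2 = ((k - 2 : ℕ) : ℝ) by rw [Nat.cast_sub (by omega)]; simp [hK]]
      rw [ENNReal.ofReal_mul (Nat.cast_nonneg _), ENNReal.ofReal_natCast]
    · intro i _ j _ hij
      exact oB_disj ε hε1 i j hij
    · intro i _
      exact measurableSet_ball
  have hvolQ : volume Q = ENNReal.ofReal ((K - 3) * m) := by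
    rw [hQ, measure_biUnion_finset]
    · simp only [hvolqB, Finset.sum_const, Finset.card_range, nsmul_eq_mul]
      rw [show K - 3 = ((k - 3 : ℕ) : ℝ) by rw [Nat.cast_sub (by omega)]; simp [hK]]
      rw [ENNReal.ofReal_mul (Nat.cast_nonneg _), ENNReal.ofReal_natCast]
    · intro i _ j _ hij
      exact qB_disj ε hε1 i j hij
    · intro i _
      exact measurableSet_ball
  -- norms
  have hoBn : ∀ i ∈ Finset.range (k-2), ∀ y ∈ oB ε i, ‖y‖ ≤ 2 * K := by
    intro i hi y hy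
    have h1 : (i : ℝ) ≤ K - 3 := by
      have : i + 3 ≤ k := by have := Finset.mem_range.1 hi; omega
      have : ((i + 3 : ℕ) : ℝ) ≤ K := by rw [hK]; exact_mod_cast this
      push_cast at this; linarith
    have h2 : ‖y - (2 * i : ℝ) • e1‖ < ε := by simpa [oB, dist_eq_norm] using hy
    have h3 : ‖(2 * i : ℝ) • e1‖ = 2 * i := norm_smul_e1 _ (by positivity)
    have h4 := norm_add_le (y - (2 * i : ℝ) • e1) ((2 * i : ℝ) • e1)
    rw [sub_add_cancel] at h4
    linarith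
  have hqBn : ∀ i ∈ Finset.range (k-3), ∀ y ∈ qB ε i, ‖y‖ ≤ 2 * K := by
    intro i hi y hy
    have h1 : (i : ℝ) ≤ K - 4 := by
      have : i + 4 ≤ k := by have := Finset.mem_range.1 hi; omega
      have : ((i + 4 : ℕ) : ℝ) ≤ K := by rw [hK]; exact_mod_cast this
      push_cast at this; linarith
    have h2 : ‖y - (2 * i + 1 : ℝ) • e1‖ < ε := by simpa [qB, dist_eq_norm] using hy
    have h3 : ‖(2 * i + 1 : ℝ) • e1‖ = 2 * i + 1 := norm_smul_e1 _ (by positivity)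
    have h4 := norm_add_le (y - (2 * i + 1 : ℝ) • e1) ((2 * i + 1 : ℝ) • e1)
    rw [sub_add_cancel] at h4
    linarith
  have hUn : ∀ s : ℝ, 0 < s → ρ^2 ≤ s^2 → s^2 < ρ^2 + 11/4 * ε^2 → ρ ≤ s ∧ s ≤ 101/100 * ρ := by
    intro s hs h1 h2
    constructor
    · exact (sq_le_sq₀ hρ0.le hs.le).1 h1
    · have : s^2 ≤ (101/100 * ρ)^2 := by
        have : ε^2 ≤ 1 := by nlinarith
        have : (1:ℝ) ≤ ρ := by nlinarith
        nlinarith
      exact (sq_le_sq₀ hs.le (by positivity)).1 this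
  have hVn : ∀ v ∈ V, 6 * ρ ≤ ‖v‖ ∧ ‖v‖ ≤ 7 * ρ := by
    intro v hv
    constructor
    · exact (sq_le_sq₀ (by positivity) (norm_nonneg v)).1 hv.1
    · have h2 := hv.2
      have : ‖v‖^2 ≤ (7 * ρ)^2 := by
        have : ε^2 ≤ 1 := by nlinarith
        have : (1:ℝ) ≤ ρ := by nlinarith
        nlinarith
      exact (sq_le_sq₀ (norm_nonneg v) (by positivity)).1 this
  -- disjointness
  have hOV : Disjoint O V := by
    rw [Set.disjoint_left]
    intro x hx hxV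
    rw [hO, mem_iUnion₂] at hx
    obtain ⟨i, hi, hxi⟩ := hx
    have h1 := hoBn i hi x hxi
    have h2 := (hVn x hxV).1
    rw [hρ] at h2
    linarith
  have hQU : Disjoint Q U := by
    rw [Set.disjoint_left]
    intro x hx hxU
    rw [hQ, mem_iUnion₂] at hx
    obtain ⟨i, hi, hxi⟩ := hx
    have h1 := hqBn i hi x hxi
    have h2 : ρ ≤ ‖x‖ := (sq_le_sq₀ hρ0.le (norm_nonneg x)).1 hxU.1
    rw [hρ] at h2
    linarith
  have hOm : MeasurableSet O :=
    Finset.measurableSet_biUnion _ (fun i _ => measurableSet_ball)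
  have hQm : MeasurableSet Q :=
    Finset.measurableSet_biUnion _ (fun i _ => measurableSet_ball)
  have hUm : MeasurableSet U := meas_Ann _ _
  have hVm : MeasurableSet V := meas_Ann _ _
  have hvol1 : volume (O ∪ V) = ENNReal.ofReal ((K + 1/50) * m) := by
    rw [measure_union hOV hVm, hvolO, hvolV, ← ENNReal.ofReal_add (by nlinarith) (by positivity)]
    congr 1; ring
  have hvol2 : volume (Q ∪ U) = ENNReal.ofReal ((K - 1/4) * m) := by
    rw [measure_union hQU hUm, hvolQ, hvolU, ← ENNReal.ofReal_add (by nlinarith) (by positivity)]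
    congr 1; ring
  have hkR : (k : ENNReal) = ENNReal.ofReal K := by rw [hK, ENNReal.ofReal_natCast]
  have hdiv1 : ENNReal.ofReal m < volume (O ∪ V) / k := by
    rw [hvol1, hkR, ← ENNReal.ofReal_div_of_pos (by linarith),
      ENNReal.ofReal_lt_ofReal_iff (by positivity)]
    rw [lt_div_iff₀ (by linarith)]
    nlinarith
  have hdiv2 : volume (Q ∪ U) / k < ENNReal.ofReal m := by
    rw [hvol2, hkR, ← ENNReal.ofReal_div_of_pos (by linarith),
      ENNReal.ofReal_lt_ofReal_iff (by positivity)]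
    rw [div_lt_iff₀ (by linarith)]
    nlinarith
  refine ⟨O ∪ V, Q ∪ U, hOm.union hVm, hQm.union hUm, ?_, ?_, ?_⟩
  · rw [hvol1]; exact ENNReal.ofReal_lt_top
  · rw [hvol2]; exact ENNReal.ofReal_lt_top
  intro S hS hS1
  obtain ⟨κ, t, d, e, hκ, ht, he, rfl⟩ : ∃ (κ t d : ℝ) (e : E), 0 ≤ κ ∧ 0 ≤ t ∧ ‖e‖ = 1 ∧
      S = Reg κ t d e := by
    rcases hS with ⟨p, r, hr, rfl⟩ | ⟨v, c, hv, rfl⟩
    · exact ball_eq_Reg p r hr
    · exact half_eq_Reg v c hv
  have hin : ∀ x : E, inner ℝ e x ≤ ‖x‖ := by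
    intro x
    have := real_inner_le_norm e x
    rwa [he, one_mul] at this
  -- it is enough to have the arc condition
  have hsuff : (∀ s : ℝ, 0 < s → ρ^2 ≤ s^2 → s^2 < ρ^2 + 11/4 * ε^2 →
      κ * s^2 + d < 2 * t * (s/4)) → volume (Q ∪ U) / k < volume ((Q ∪ U) ∩ Reg κ t d e) := by
    intro h
    have h1 := W1 κ t d e he ht (ρ^2) (ρ^2 + 11/4 * ε^2) (by positivity) (by nlinarith) h
    have h2 : volume (Ann (ρ^2) (ρ^2 + 11/4 * ε^2) ∩ Reg κ t d e)
        ≤ volume ((Q ∪ U) ∩ Reg κ t d e) :=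
      measure_mono (inter_subset_inter_left _ subset_union_right)
    have h3 : ENNReal.ofReal m ≤
        ENNReal.ofReal (3 * Real.pi / 8 * (ρ^2 + 11/4 * ε^2 - ρ^2)) := by
      apply ENNReal.ofReal_le_ofReal
      have : 3 * Real.pi / 8 * (ρ^2 + 11/4 * ε^2 - ρ^2) = 33/32 * m := by rw [hm]; ring
      rw [this]; linarith
    exact lt_of_lt_of_le hdiv2 (h3.trans (h1.trans h2))
  by_contra hcon
  have hcon' : ¬ (∀ s : ℝ, 0 < s → ρ^2 ≤ s^2 → s^2 < ρ^2 + 11/4 * ε^2 →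
      κ * s^2 + d < 2 * t * (s/4)) := fun h => hcon (hsuff h)
  -- the region does not meet two of the `o` balls
  have hC : ∀ i ∈ Finset.range (k-2), ∀ j ∈ Finset.range (k-2), i < j →
      ∀ y ∈ oB ε i, ∀ y' ∈ oB ε j, y ∈ Reg κ t d e → y' ∈ Reg κ t d e → False := by
    intro i hi j hj hij y hy y' hy' hyR hyR'
    have hi3 : i ∈ Finset.range (k-3) := by
      rw [Finset.mem_range] at hi hj ⊢; omega
    -- the ball `q_i` is not contained in the region
    have hq : ∃ z ∈ qB ε i, z ∉ Reg κ t d e := by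
      by_contra hno
      push Not at hno
      apply hcon
      have h1 : qB ε i ⊆ (Q ∪ U) ∩ Reg κ t d e := by
        intro z hz
        refine ⟨Or.inl ?_, hno z hz⟩
        rw [hQ, mem_iUnion₂]
        exact ⟨i, hi3, hz⟩
      calc volume (Q ∪ U) / k < ENNReal.ofReal m := hdiv2
        _ = volume (qB ε i) := (hvolqB i).symm
        _ ≤ _ := measure_mono h1
    obtain ⟨z, hz, hzR⟩ := hq
    have hijR : (i:ℝ) + 1 ≤ j := by exact_mod_cast hij
    set n : ℝ := (j:ℝ) - i with hn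
    have hn1 : 1 ≤ n := by linarith
    have hzn := hqBn i hi3 z hz
    have hyn := hoBn i hi y hy
    have hyn' := hoBn j hj y' hy'
    have hκε : κ ≤ 8 * t * ε := by
      refine caseC (d := d) (h := 2 * K) (n := n) (θ := 1/(2*n)) (e := e) (y := y) (y' := y')
        (z := z) (p := (2 * i : ℝ) • e1) (p' := (2 * j : ℝ) • e1) (q := (2 * i + 1 : ℝ) • e1)
        he hκ ht hε0 hε1 hn1 rfl ?_ ?_ ?_ ?_ ?_ (by positivity) hyn hyn' hzn ?_ ?_ ?_ ?_
      · rw [← dist_eq_norm, dist_smul_e1]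
        have : (2 * i : ℝ) - 2 * j = -(2 * n) := by rw [hn]; ring
        rw [this, abs_neg, abs_of_nonneg (by linarith)]
      · rw [smul_smul, smul_smul, ← add_smul]
        congr 1
        have hn0 : n ≠ 0 := by linarith
        have : (j:ℝ) = i + n := by rw [hn]; ring
        rw [this]
        field_simp
        ring
      · simpa [oB, dist_eq_norm] using hy
      · simpa [oB, dist_eq_norm] using hy'
      · simpa [qB, dist_eq_norm] using hz
      · nlinarith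
      · exact hyR
      · exact hyR'
      · simpa [Reg] using hzR
    apply hcon'
    intro s hs hs1 hs2
    obtain ⟨hs3, hs4⟩ := hUn s hs hs1 hs2
    refine caseC' (y := ‖y‖) (iy := inner ℝ e y) (h := 2 * K) (ε := ε) hκ ht hs hyn (hin y) hκε ?_ hyR
    have h1 : 8 * ε * s ≤ 8 * ε * (101/100 * ρ) := by gcongr
    have h2 : 8 * ε * (101/100 * ρ) = 808/10000 := by
      rw [hρ]; linear_combination (808 : ℝ) * hεK
    have h3 : 8 * ε * s^2 ≤ 808/10000 * s := by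
      have : 8 * ε * s^2 = (8 * ε * s) * s := by ring
      rw [this]
      apply mul_le_mul_of_nonneg_right _ hs.le
      linarith
    have h4 : 2 * (2 * K) ≤ 4/100 * s := by
      rw [hρ] at hs3; linarith
    linarith
  -- the region meets `V`
  have hVmeet : ∃ v ∈ V, v ∈ Reg κ t d e := by
    by_contra hno
    push Not at hno
    -- then it meets at most one `o` ball
    have hsub : ∃ i, (O ∪ V) ∩ Reg κ t d e ⊆ oB ε i := by
      by_cases hex : ∃ i ∈ Finset.range (k-2), ∃ y ∈ oB ε i, y ∈ Reg κ t d e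
      · obtain ⟨i, hi, y, hy, hyR⟩ := hex
        refine ⟨i, ?_⟩
        rintro x ⟨hx1, hx2⟩
        rcases hx1 with hx1 | hx1
        · rw [hO, mem_iUnion₂] at hx1
          obtain ⟨j, hj, hxj⟩ := hx1
          rcases lt_trichotomy i j with h | h | h
          · exact (hC i hi j hj h y hy x hxj hyR hx2).elim
          · rw [h]; exact hxj
          · exact (hC j hj i hi h x hxj y hy hx2 hyR).elim
        · exact (hno x hx1 hx2).elim
      · refine ⟨0, ?_⟩
        rintro x ⟨hx1, hx2⟩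
        rcases hx1 with hx1 | hx1
        · rw [hO, mem_iUnion₂] at hx1
          obtain ⟨j, hj, hxj⟩ := hx1
          exact (hex ⟨j, hj, x, hxj, hx2⟩).elim
        · exact (hno x hx1 hx2).elim
    obtain ⟨i, hsub⟩ := hsub
    have h1 := measure_mono (μ := volume) hsub
    rw [hS1, hvoloB i] at h1
    exact absurd hdiv1 (not_lt.2 h1)
  obtain ⟨v, hvV, hvR⟩ := hVmeet
  obtain ⟨hv1, hv2⟩ := hVn v hvV
  -- the region does not meet the `o` balls
  have hB : ∀ i ∈ Finset.range (k-2), ∀ y ∈ oB ε i, y ∉ Reg κ t d e := by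
    intro i hi y hy hyR
    apply hcon'
    intro s hs hs1 hs2
    obtain ⟨hs3, hs4⟩ := hUn s hs hs1 hs2
    have hyn := hoBn i hi y hy
    refine caseB (v := ‖v‖) (y := ‖y‖) (iv := inner ℝ e v) (iy := inner ℝ e y) hκ ht hs
      (norm_nonneg y) ?_ (hin y) (hin v) ?_ hyR hvR
    · linarith
    · have h1 : s^2 / ‖v‖ ≤ 101/600 * s := by
        rw [div_le_iff₀ (by linarith)]
        have : 101/600 * s * (6 * ρ) ≤ 101/600 * s * ‖v‖ := by gcongr
        nlinarith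
      have h2 : ‖y‖ ≤ 2/100 * s := by
        rw [hρ] at hs3; linarith
      linarith
  -- the region has a big part of `V`
  have hAsub : (O ∪ V) ∩ Reg κ t d e ⊆ V ∩ Reg κ t d e := by
    rintro x ⟨hx1, hx2⟩
    rcases hx1 with hx1 | hx1
    · rw [hO, mem_iUnion₂] at hx1
      obtain ⟨j, hj, hxj⟩ := hx1
      exact (hB j hj x hxj hx2).elim
    · exact ⟨hx1, hx2⟩
  have hbig : ENNReal.ofReal (49 / 100 * Real.pi * ((6*ρ)^2 + 101/50 * ε^2 - (6*ρ)^2))
      < volume (Ann ((6*ρ)^2) ((6*ρ)^2 + 101/50 * ε^2) ∩ Reg κ t d e) := by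
    have h1 := measure_mono (μ := volume) hAsub
    rw [hS1] at h1
    refine lt_of_le_of_lt ?_ (lt_of_lt_of_le hdiv1 h1)
    apply ENNReal.ofReal_le_ofReal
    have : 49 / 100 * Real.pi * ((6*ρ)^2 + 101/50 * ε^2 - (6*ρ)^2) = 4949/5000 * m := by
      rw [hm]; ring
    rw [this]; linarith
  obtain ⟨v, ⟨hvV, hvR⟩, hve⟩ := W2 κ t d e he _ _ (by positivity) (by nlinarith) hbig
  obtain ⟨hv1, hv2⟩ := hVn v hvV
  apply hcon'
  intro s hs hs1 hs2
  obtain ⟨hs3, hs4⟩ := hUn s hs hs1 hs2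
  exact caseA (v := ‖v‖) (w := inner ℝ e v) hκ ht hs (by linarith) (by linarith) hve hvR

end Pool.Agent.helper55.Circle
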