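import Pool.Agent.helper55.Tour

/-!
Two-sided bounds for the worst-case constant in every dimension `d ≥ 2`.
-/

set_option autoImplicit false

open MeasureTheory Filter Topology

namespace Pool.Agent.helper55.TSP

variable {d : ℕ}

lemma bern {a : ℝ} (h0 : 0 ≤ a) (h1 : a ≤ 1) (k : ℕ) (hk : 1 ≤ k) :
    a * (k : ℝ) ^ (a - 1) ≤ (k : ℝ) ^ a - ((k - 1 : ℕ) : ℝ) ^ a := by
  have hkpos : (0 : ℝ) < k := by exact_mod_cast hk
  have e1 : ((k - 1 : ℕ) : ℝ) = k * (1 + (-(1 / k))) := by
    rw [Nat.cast_sub hk]; field_simp; push_cast; ring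
  have h2 : (0 : ℝ) ≤ 1 + (-(1 / k)) := by
    have : (1 : ℝ) / k ≤ 1 := by
      rw [div_le_one hkpos]; exact_mod_cast hk
    linarith
  have h3 := rpow_one_add_le_one_add_mul_self (s := -(1 / (k : ℝ))) (by linarith) h0 h1
  rw [e1, Real.mul_rpow hkpos.le h2]
  have h4 : (k : ℝ) ^ (a - 1) = (k : ℝ) ^ a / k := by
    rw [Real.rpow_sub hkpos, Real.rpow_one]
  rw [h4]
  have h5 : (k : ℝ) ^ a * (1 + -(1 / k)) ^ a ≤ (k : ℝ) ^ a * (1 + a * -(1 / k)) :=
    mul_le_mul_of_nonneg_left h3 (by positivity)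
  have h6 : (k : ℝ) ^ a * (1 + a * -(1 / k)) = (k : ℝ) ^ a - a * ((k : ℝ) ^ a / k) := by
    ring
  linarith

lemma sum_bern {a : ℝ} (h0 : 0 ≤ a) (h1 : a ≤ 1) (n : ℕ) :
    a * ∑ k ∈ Finset.Icc 1 n, (k : ℝ) ^ (a - 1) ≤ (n : ℝ) ^ a := by
  induction n with
  | zero =>
    simp only [Finset.Icc_eq_empty_of_lt Nat.zero_lt_one, Finset.sum_empty, mul_zero]
    positivity
  | succ n ih =>
    rw [Finset.sum_Icc_succ_top (by omega), mul_add]
    have := bern h0 h1 (n + 1) (by omega)
    rw [Nat.add_sub_cancel] at this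
    linarith

/-- `(d-1)/d` -/
noncomputable def ex (d : ℕ) : ℝ := ((d : ℝ) - 1) / d

lemma ex_pos (hd : 2 ≤ d) : 0 < ex d := by
  unfold ex
  have : (2 : ℝ) ≤ d := by exact_mod_cast hd
  apply div_pos <;> linarith

lemma ex_le (hd : 2 ≤ d) : ex d ≤ 1 := by
  unfold ex
  have : (2 : ℝ) ≤ d := by exact_mod_cast hd
  rw [div_le_one (by linarith)]
  linarith

lemma ex_sub (hd : 2 ≤ d) : ex d - 1 = -((1 : ℝ) / d) := by
  unfold ex
  have : (2 : ℝ) ≤ d := by exact_mod_cast hd
  field_simp
  ring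

/-- upper bound with an `ε` of room -/
lemma worst_upper_eps (hd : 2 ≤ d) {ε : ℝ} (hε : 0 < ε) :
    ∃ C : ℝ, 0 ≤ C ∧ ∀ n : ℕ, 1 ≤ n →
      worstTour d n ≤ (kap d + ε) * ((n : ℝ) ^ ex d / ex d) + C := by
  classical
  have hk := kap_nonneg d
  have ha := ex_pos hd
  have hdpos : (0 : ℝ) < d := by positivity
  set c := kap d with hc
  set M : ℝ := c + 1 + c ^ 2 / ε with hM
  have htend : Tendsto (fun n : ℕ => (n : ℝ) ^ ((1 : ℝ) / d)) atTop atTop :=
    (tendsto_rpow_atTop (by positivity)).comp tendsto_natCast_atTop_atTop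
  obtain ⟨K, hK⟩ := (htend.eventually_ge_atTop M).exists_forall_of_atTop
  set ρ : ℕ → ℝ := fun k => if k < K then √d else (c + ε) * (k : ℝ) ^ (ex d - 1) with hρdef
  have hρ0 : ∀ k, 0 ≤ ρ k := by
    intro k
    simp only [hρdef]
    split_ifs <;> positivity
  have hρ : ∀ F : Finset (EuclideanSpace ℝ (Fin d)),
      (F : Set (EuclideanSpace ℝ (Fin d))) ⊆ cube d → 2 ≤ F.card →
      ∃ x ∈ F, ∃ y ∈ F, x ≠ y ∧ dist x y ≤ ρ F.card := by
    intro F hF hcard
    obtain ⟨x, hx, y, hy, hxy, hmin⟩ := closest_pair F hcard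
    refine ⟨x, hx, y, hy, hxy, ?_⟩
    simp only [hρdef]
    split_ifs with hlt
    · exact cube_dist (hF hx) (hF hy)
    · push Not at hlt
      have hs : 0 < dist x y := dist_pos.2 hxy
      have h1 := sep_upper (by omega) F hF hs hmin
      set s := dist x y with hsdef
      have h2 : M ≤ (F.card : ℝ) ^ ((1 : ℝ) / d) := hK _ hlt
      have hFpos : (0 : ℝ) < F.card := by
        have : 0 < F.card := by omega
        exact_mod_cast this
      have h3 : c * s ≤ ε := by
        by_contra hcon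
        push Not at hcon
        have h4 : s * M ≤ c * (1 + s) := (mul_le_mul_of_nonneg_left h2 hs.le).trans h1
        have h5 : c * (s * M) ≤ c * (c * (1 + s)) := mul_le_mul_of_nonneg_left h4 hk
        have h6 : c * s * (1 + c ^ 2 / ε) ≤ c ^ 2 := by
          have e : c * (s * M) - c * (c * s) = c * s * (1 + c ^ 2 / ε) := by rw [hM]; ring
          nlinarith
        have h7 : ε * (1 + c ^ 2 / ε) = ε + c ^ 2 := by field_simp
        have h8 : ε * (1 + c ^ 2 / ε) ≤ c * s * (1 + c ^ 2 / ε) :=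
          mul_le_mul_of_nonneg_right hcon.le (by positivity)
        linarith
      rw [ex_sub hd, Real.rpow_neg hFpos.le, ← div_eq_mul_inv, le_div_iff₀ (by positivity)]
      linarith
  refine ⟨K * √d + √d, by positivity, ?_⟩
  intro n hn
  have h1 := worst_upper ρ hρ (n := n) (by omega) (Finset.sum_nonneg fun k _ => hρ0 k)
  have h2 : ∑ j ∈ Finset.Icc 2 n, ρ j ≤ K * √d + (c + ε) * ((n : ℝ) ^ ex d / ex d) := by
    calc ∑ j ∈ Finset.Icc 2 n, ρ j ≤ ∑ j ∈ Finset.Icc 1 n, ρ j :=
          Finset.sum_le_sum_of_subset_of_nonneg (Finset.Icc_subset_Icc_left (by omega))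
            (fun k _ _ => hρ0 k)
      _ ≤ ∑ j ∈ Finset.Icc 1 n, ((if j < K then √d else 0) + (c + ε) * (j : ℝ) ^ (ex d - 1)) := by
          apply Finset.sum_le_sum
          intro j _
          simp only [hρdef]
          split_ifs
          · have : 0 ≤ (c + ε) * (j : ℝ) ^ (ex d - 1) := by positivity
            linarith
          · linarith
      _ = ∑ j ∈ Finset.Icc 1 n, (if j < K then √d else 0)
            + (c + ε) * ∑ j ∈ Finset.Icc 1 n, (j : ℝ) ^ (ex d - 1) := by
          rw [Finset.sum_add_distrib, Finset.mul_sum]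
      _ ≤ K * √d + (c + ε) * ((n : ℝ) ^ ex d / ex d) := by
          apply add_le_add
          · rw [← Finset.sum_filter, Finset.sum_const, nsmul_eq_mul]
            apply mul_le_mul_of_nonneg_right _ (by positivity)
            have : ((Finset.Icc 1 n).filter (fun j => j < K)).card ≤ K := by
              calc _ ≤ (Finset.range K).card := by
                    apply Finset.card_le_card
                    intro j hj
                    simp only [Finset.mem_filter] at hj
                    exact Finset.mem_range.2 hj.2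
                _ = K := Finset.card_range K
            exact_mod_cast this
          · apply mul_le_mul_of_nonneg_left _ (by positivity)
            rw [le_div_iff₀ ha, mul_comm]
            exact sum_bern ha.le (ex_le hd) n
  linarith

lemma rpow_ex_pos {n : ℕ} (hn : 1 ≤ n) : 0 < (n : ℝ) ^ ex d := by
  have : (0 : ℝ) < n := by exact_mod_cast hn
  positivity

lemma quot_bdd (hd : 2 ≤ d) : IsBoundedUnder (· ≤ ·) atTop
    (fun n : ℕ => worstTour d n / (n : ℝ) ^ ex d) := by
  obtain ⟨C, hC, h⟩ := worst_upper_eps hd one_pos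
  refine ⟨(kap d + 1) / ex d + C, ?_⟩
  rw [eventually_map]
  filter_upwards [eventually_ge_atTop 1] with n hn
  have hp := rpow_ex_pos (d := d) hn
  have h1 : (1 : ℝ) ≤ (n : ℝ) ^ ex d := by
    apply Real.one_le_rpow (by exact_mod_cast hn) (ex_pos hd).le
  rw [div_le_iff₀ hp]
  have h2 := h n hn
  have e : ((kap d + 1) / ex d + C) * (n : ℝ) ^ ex d
      = (kap d + 1) * ((n : ℝ) ^ ex d / ex d) + C * (n : ℝ) ^ ex d := by ring
  rw [e]
  nlinarith

lemma quot_nonneg (n : ℕ) : 0 ≤ worstTour d n / (n : ℝ) ^ ex d := by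
  have := worst_nonneg d n
  positivity

theorem alpha_upper (hd : 2 ≤ d) : alpha d ≤ d / ((d : ℝ) - 1) * kap d := by
  have ha := ex_pos hd
  have e0 : (d : ℝ) / ((d : ℝ) - 1) * kap d = kap d / ex d := by
    unfold ex
    rw [div_div_eq_mul_div]
    ring
  rw [e0]
  apply le_of_forall_pos_le_add
  intro δ hδ
  obtain ⟨C, hC, h⟩ := worst_upper_eps hd (mul_pos hδ ha)
  have htend : Tendsto (fun n : ℕ => (kap d + δ * ex d) / ex d + C / (n : ℝ) ^ ex d) atTop
      (𝓝 ((kap d + δ * ex d) / ex d + 0)) := by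
    apply Tendsto.const_add
    apply Tendsto.div_atTop tendsto_const_nhds
    exact (tendsto_rpow_atTop ha).comp tendsto_natCast_atTop_atTop
  have e1 : (kap d + δ * ex d) / ex d + 0 = kap d / ex d + δ := by
    field_simp
    ring
  rw [e1] at htend
  unfold alpha
  change limsup (fun n : ℕ => worstTour d n / (n : ℝ) ^ ex d) atTop ≤ _
  rw [← htend.limsup_eq]
  apply limsup_le_limsup
  · filter_upwards [eventually_ge_atTop 1] with n hn
    have hp := rpow_ex_pos (d := d) hn
    rw [div_le_iff₀ hp]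
    have h2 := h n hn
    have e : ((kap d + δ * ex d) / ex d + C / (n : ℝ) ^ ex d) * (n : ℝ) ^ ex d
        = (kap d + δ * ex d) * ((n : ℝ) ^ ex d / ex d) + C := by
      field_simp
    rw [e]
    exact h2
  · exact (isBoundedUnder_of (r := (· ≥ ·)) ⟨0, fun n => quot_nonneg n⟩).isCoboundedUnder_le
  · exact htend.isBoundedUnder_le

theorem alpha_lower (hd : 2 ≤ d) : kap d ≤ alpha d := by
  have ha := ex_pos hd
  have hV := vol1_pos d
  unfold alpha
  change _ ≤ limsup (fun n : ℕ => worstTour d n / (n : ℝ) ^ ex d) atTop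
  have hnn : 0 ≤ limsup (fun n : ℕ => worstTour d n / (n : ℝ) ^ ex d) atTop :=
    le_limsup_of_frequently_le (Eventually.of_forall fun n => quot_nonneg n).frequently
      (quot_bdd hd)
  apply le_of_forall_lt
  intro b hb
  rcases lt_or_ge b 0 with hb0 | hb0
  · linarith
  -- use the midpoint to get strict inequality
  obtain ⟨b', hb1, hb2⟩ := exists_between hb
  refine hb1.trans_le ?_
  have hb'pos : 0 < b' := lt_of_le_of_lt hb0 hb1
  apply le_limsup_of_frequently_le _ (quot_bdd hd)
  apply Eventually.frequently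
  filter_upwards [eventually_ge_atTop 2] with n hn
  have hnpos : (0 : ℝ) < n := by
    have : 0 < n := by omega
    exact_mod_cast this
  have hp := rpow_ex_pos (d := d) (n := n) (by omega)
  rw [le_div_iff₀ hp]
  set s : ℝ := b' * (n : ℝ) ^ (ex d - 1) with hs
  have hspos : 0 < s := by positivity
  have h1 : n * (vol1 d * (s / 2) ^ d) < theta d := by
    rw [← kap_pow (by omega : d ≠ 0)]
    have e1 : (s / 2) ^ d = (b' / 2) ^ d * (n : ℝ)⁻¹ := by
      have e2 : s / 2 = (b' / 2) * (n : ℝ) ^ (ex d - 1) := by rw [hs]; ring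
      rw [e2, mul_pow, ex_sub hd, ← Real.rpow_natCast ((n : ℝ) ^ (-(1 / (d : ℝ)))),
        ← Real.rpow_mul hnpos.le]
      have hd0 : (d : ℝ) ≠ 0 := by positivity
      have e3 : -(1 / (d : ℝ)) * d = -1 := by field_simp
      rw [e3, Real.rpow_neg_one]
    rw [e1]
    have e4 : n * (vol1 d * ((b' / 2) ^ d * (n : ℝ)⁻¹)) = vol1 d * (b' / 2) ^ d := by
      field_simp
    rw [e4]
    apply mul_lt_mul_of_pos_left _ hV
    apply pow_lt_pow_left₀ _ (by positivity) (by omega)
    linarith
  have h2 := worst_lower hspos hn h1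
  have e5 : n * s = b' * (n : ℝ) ^ ex d := by
    rw [hs]
    have e6 : (n : ℝ) ^ ex d = (n : ℝ) ^ (ex d - 1) * n := by
      rw [← Real.rpow_add_one hnpos.ne']
      congr 1
      ring
    rw [e6]
    ring
  linarith

end Pool.Agent.helper55.TSP
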