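import Mathlib

/-!
Asymptotics of the volume of the unit ball: `Γ(d/2+1)^{1/d} / √d → 1/√(2e)`.
-/

set_option autoImplicit false

open Filter Topology Real

namespace Pool.Agent.helper55.TSP

lemma log_fact_asymp :
    Tendsto (fun n : ℕ => Real.log (n.factorial : ℝ) / n - Real.log n) atTop (𝓝 (-1)) := by
  have h1 : Tendsto (fun n : ℕ => Real.log (Stirling.stirlingSeq n) / (n : ℝ)) atTop (𝓝 0) := by
    refine Tendsto.div_atTop (a := Real.log √π) ?_ tendsto_natCast_atTop_atTop
    exact ((Real.continuousAt_log (by positivity)).tendsto.comp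
      Stirling.tendsto_stirlingSeq_sqrt_pi)
  have h2 : Tendsto (fun n : ℕ => Real.log (2 * (n : ℝ)) / (2 * (n : ℝ))) atTop (𝓝 0) := by
    have h3 : Tendsto (fun x : ℝ => Real.log x / x) atTop (𝓝 0) := by
      have := Real.tendsto_pow_log_div_mul_add_atTop 1 0 1 one_ne_zero
      simpa using this
    exact h3.comp (tendsto_natCast_atTop_atTop.const_mul_atTop two_pos)
  have h4 : Tendsto (fun n : ℕ => Real.log (Stirling.stirlingSeq n) / (n : ℝ)
      + Real.log (2 * (n : ℝ)) / (2 * (n : ℝ)) + -1) atTop (𝓝 (0 + 0 + -1)) :=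
    (h1.add h2).add_const _
  simp only [zero_add] at h4
  refine h4.congr' ?_
  filter_upwards [eventually_ge_atTop 1] with n hn
  have hnpos : (0 : ℝ) < n := by exact_mod_cast hn
  have h5 := Stirling.log_stirlingSeq_formula n
  rw [h5, Real.log_div hnpos.ne' (Real.exp_pos 1).ne', Real.log_exp]
  field_simp
  ring

lemma half_div : Tendsto (fun d : ℕ => ((d / 2 : ℕ) : ℝ) / d) atTop (𝓝 (1 / 2)) := by
  have h1 : Tendsto (fun d : ℕ => (1 : ℝ) / 2 - 1 / d) atTop (𝓝 (1 / 2 - 0)) :=
    tendsto_const_nhds.sub (tendsto_const_nhds.div_atTop tendsto_natCast_atTop_atTop)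
  rw [sub_zero] at h1
  refine tendsto_of_tendsto_of_tendsto_of_le_of_le' h1 tendsto_const_nhds ?_ ?_
  · filter_upwards [eventually_ge_atTop 1] with d hd
    have hdpos : (0 : ℝ) < d := by exact_mod_cast hd
    have h2 : d ≤ 2 * (d / 2) + 1 := by omega
    have h3 : (d : ℝ) ≤ 2 * ((d / 2 : ℕ) : ℝ) + 1 := by exact_mod_cast h2
    rw [le_div_iff₀ hdpos]
    have e : (1 / 2 - 1 / (d : ℝ)) * d = d / 2 - 1 := by field_simp
    rw [e]
    linarith
  · filter_upwards [eventually_ge_atTop 1] with d hd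
    have hdpos : (0 : ℝ) < d := by exact_mod_cast hd
    have h2 : 2 * (d / 2) ≤ d := by omega
    have h3 : 2 * ((d / 2 : ℕ) : ℝ) ≤ d := by exact_mod_cast h2
    rw [div_le_iff₀ hdpos]
    linarith

lemma log_div_self : Tendsto (fun n : ℕ => Real.log (n : ℝ) / n) atTop (𝓝 0) := by
  have h3 : Tendsto (fun x : ℝ => Real.log x / x) atTop (𝓝 0) := by
    have := Real.tendsto_pow_log_div_mul_add_atTop 1 0 1 one_ne_zero
    simpa using this
  exact h3.comp tendsto_natCast_atTop_atTop

lemma tendsto_half : Tendsto (fun d : ℕ => d / 2) atTop atTop := by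
  rw [tendsto_atTop_atTop]
  intro b
  exact ⟨2 * b, fun a ha => by omega⟩

lemma log_fact_half : Tendsto (fun d : ℕ => Real.log ((d / 2).factorial : ℝ) / d
    - 1 / 2 * Real.log d) atTop (𝓝 (-(1 / 2) - 1 / 2 * Real.log 2)) := by
  have h1 := log_fact_asymp.comp tendsto_half
  have h2 : Tendsto (fun d : ℕ => Real.log (((d / 2 : ℕ) : ℝ) / d)) atTop (𝓝 (Real.log (1 / 2))) :=
    (Real.continuousAt_log (by norm_num)).tendsto.comp half_div
  have h3 : Tendsto (fun d : ℕ => (((d / 2 : ℕ) : ℝ) / d - 1 / 2) * Real.log d) atTop (𝓝 0) := by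
    rw [tendsto_zero_iff_abs_tendsto_zero]
    refine squeeze_zero' (Eventually.of_forall fun d => abs_nonneg _) ?_ log_div_self
    filter_upwards [eventually_ge_atTop 1] with d hd
    have hdpos : (0 : ℝ) < d := by exact_mod_cast hd
    have hlog : 0 ≤ Real.log d := Real.log_nonneg (by exact_mod_cast hd)
    simp only [Function.comp_apply]
    rw [abs_mul, abs_of_nonneg hlog]
    have h4 : |((d / 2 : ℕ) : ℝ) / d - 1 / 2| ≤ 1 / d := by
      have h2 : d ≤ 2 * (d / 2) + 1 := by omega
      have h3 : (d : ℝ) ≤ 2 * ((d / 2 : ℕ) : ℝ) + 1 := by exact_mod_cast h2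
      have h2' : 2 * (d / 2) ≤ d := by omega
      have h3' : 2 * ((d / 2 : ℕ) : ℝ) ≤ d := by exact_mod_cast h2'
      have e : ((d / 2 : ℕ) : ℝ) / d - 1 / 2 = (2 * ((d / 2 : ℕ) : ℝ) - d) / (2 * d) := by
        field_simp
      rw [e, abs_div, abs_of_pos (by positivity : (0 : ℝ) < 2 * d), div_le_div_iff₀
        (by positivity) hdpos]
      have h5 : |2 * ((d / 2 : ℕ) : ℝ) - d| ≤ 1 := by rw [abs_le]; constructor <;> linarith
      nlinarith
    calc _ ≤ 1 / (d : ℝ) * Real.log d := mul_le_mul_of_nonneg_right h4 hlog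
      _ = Real.log d / d := by ring
  have h5 := ((half_div.mul h1).add (half_div.mul h2)).add h3
  have e : (1 : ℝ) / 2 * -1 + 1 / 2 * Real.log (1 / 2) + 0 = -(1 / 2) - 1 / 2 * Real.log 2 := by
    rw [one_div, Real.log_inv]; ring
  rw [e] at h5
  refine h5.congr' ?_
  filter_upwards [eventually_ge_atTop 2] with d hd
  have hm : 1 ≤ d / 2 := by omega
  have hdpos : (0 : ℝ) < d := by
    have : 0 < d := by omega
    exact_mod_cast this
  have hmpos : (0 : ℝ) < ((d / 2 : ℕ) : ℝ) := by exact_mod_cast hm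
  simp only [Function.comp_apply]
  rw [Real.log_div hmpos.ne' hdpos.ne']
  field_simp
  ring

lemma gamma_sandwich {d : ℕ} (hd : 2 ≤ d) :
    ((d / 2).factorial : ℝ) ≤ Real.Gamma ((d : ℝ) / 2 + 1) ∧
    Real.Gamma ((d : ℝ) / 2 + 1) ≤ (((d / 2 : ℕ) : ℝ) + 1) * ((d / 2).factorial : ℝ) := by
  have h2 : d ≤ 2 * (d / 2) + 1 := by omega
  have h3 : (d : ℝ) ≤ 2 * ((d / 2 : ℕ) : ℝ) + 1 := by exact_mod_cast h2
  have h2' : 2 * (d / 2) ≤ d := by omega
  have h3' : 2 * ((d / 2 : ℕ) : ℝ) ≤ d := by exact_mod_cast h2'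
  have hm : 1 ≤ d / 2 := by omega
  have hm' : (1 : ℝ) ≤ ((d / 2 : ℕ) : ℝ) := by exact_mod_cast hm
  have hd' : (2 : ℝ) ≤ d := by exact_mod_cast hd
  have hmono := Real.Gamma_strictMonoOn_Ici.monotoneOn
  constructor
  · rw [← Real.Gamma_nat_eq_factorial]
    apply hmono
    · simp only [Set.mem_Ici]; linarith
    · simp only [Set.mem_Ici]; linarith
    · linarith
  · have e : (((d / 2 : ℕ) : ℝ) + 1) * ((d / 2).factorial : ℝ)
        = Real.Gamma (((d / 2 + 1 : ℕ) : ℝ) + 1) := by
      rw [Real.Gamma_nat_eq_factorial, Nat.factorial_succ]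
      push_cast
      ring
    rw [e]
    apply hmono
    · simp only [Set.mem_Ici]; linarith
    · simp only [Set.mem_Ici]; push_cast; linarith
    · push_cast; linarith

lemma log_gamma_half : Tendsto (fun d : ℕ => Real.log (Real.Gamma ((d : ℝ) / 2 + 1)) / d
    - 1 / 2 * Real.log d) atTop (𝓝 (-(1 / 2) - 1 / 2 * Real.log 2)) := by
  have h1 : Tendsto (fun d : ℕ => Real.log (((d / 2 : ℕ) : ℝ) + 1) / d) atTop (𝓝 0) := by
    have h2 : Tendsto (fun d : ℕ => Real.log (d : ℝ) / d) atTop (𝓝 0) := log_div_self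
    refine squeeze_zero' (Eventually.of_forall fun d => ?_) ?_ h2
    · apply div_nonneg _ (Nat.cast_nonneg _)
      apply Real.log_nonneg
      have : (0 : ℝ) ≤ ((d / 2 : ℕ) : ℝ) := Nat.cast_nonneg _
      linarith
    · filter_upwards [eventually_ge_atTop 2] with d hd
      apply div_le_div_of_nonneg_right _ (Nat.cast_nonneg _)
      apply Real.log_le_log (by positivity)
      have : d / 2 + 1 ≤ d := by omega
      exact_mod_cast this
  have h3 := log_fact_half.add h1
  rw [add_zero] at h3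
  refine tendsto_of_tendsto_of_tendsto_of_le_of_le' log_fact_half h3 ?_ ?_
  · filter_upwards [eventually_ge_atTop 2] with d hd
    have hdpos : (0 : ℝ) < d := by
      have : 0 < d := by omega
      exact_mod_cast this
    have h4 := (gamma_sandwich hd).1
    have h5 : (0 : ℝ) < ((d / 2).factorial : ℝ) := by positivity
    have h6 := Real.log_le_log h5 h4
    have h7 := div_le_div_of_nonneg_right h6 hdpos.le
    linarith
  · filter_upwards [eventually_ge_atTop 2] with d hd
    have hdpos : (0 : ℝ) < d := by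
      have : 0 < d := by omega
      exact_mod_cast this
    obtain ⟨h4, h4'⟩ := gamma_sandwich hd
    have h5 : (0 : ℝ) < ((d / 2).factorial : ℝ) := by positivity
    have h6 := Real.log_le_log (h5.trans_le h4) h4'
    rw [Real.log_mul (by positivity) h5.ne'] at h6
    have h7 := div_le_div_of_nonneg_right h6 hdpos.le
    rw [add_div] at h7
    linarith

lemma gamma_root : Tendsto (fun d : ℕ => (Real.Gamma ((d : ℝ) / 2 + 1)) ^ ((1 : ℝ) / d) / √d)
    atTop (𝓝 (1 / √(2 * Real.exp 1))) := by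
  have h1 := (Real.continuous_exp.tendsto _).comp log_gamma_half
  have e : Real.exp (-(1 / 2) - 1 / 2 * Real.log 2) = 1 / √(2 * Real.exp 1) := by
    have h2 : √(2 * Real.exp 1) = Real.exp (1 / 2 * Real.log 2 + 1 / 2) := by
      rw [Real.sqrt_eq_rpow, Real.rpow_def_of_pos (by positivity),
        Real.log_mul (by norm_num) (Real.exp_pos 1).ne', Real.log_exp]
      congr 1
      ring
    rw [h2, eq_div_iff (Real.exp_pos _).ne', ← Real.exp_add]
    have h3 : -(1 / 2) - 1 / 2 * Real.log 2 + (1 / 2 * Real.log 2 + 1 / 2) = 0 := by ring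
    rw [h3, Real.exp_zero]
  rw [e] at h1
  refine h1.congr' ?_
  filter_upwards [eventually_ge_atTop 2] with d hd
  have hdpos : (0 : ℝ) < d := by
    have : 0 < d := by omega
    exact_mod_cast this
  have hG : 0 < Real.Gamma ((d : ℝ) / 2 + 1) := Real.Gamma_pos_of_pos (by positivity)
  simp only [Function.comp_apply]
  rw [Real.exp_sub, Real.rpow_def_of_pos hG, Real.sqrt_eq_rpow, Real.rpow_def_of_pos hdpos]
  congr 2 <;> ring

end Pool.Agent.helper55.TSP
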