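import Pool.Agent.helper55.AlphaBounds
import Pool.Agent.helper55.VolAsymp

/-!
The high-dimensional asymptotics of the worst-case constant.
-/

set_option autoImplicit false

open MeasureTheory Filter Topology

namespace Pool.Agent.helper55.TSP

lemma vol1_eq {d : ℕ} (hd : 1 ≤ d) :
    vol1 d = √Real.pi ^ d / Real.Gamma ((d : ℝ) / 2 + 1) := by
  have : Nonempty (Fin d) := ⟨⟨0, hd⟩⟩
  unfold vol1
  rw [measureReal_def, EuclideanSpace.volume_ball]
  simp only [Fintype.card_fin, ENNReal.ofReal_one, one_pow, one_mul]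
  apply ENNReal.toReal_ofReal
  have : 0 < Real.Gamma ((d : ℝ) / 2 + 1) := Real.Gamma_pos_of_pos (by positivity)
  positivity

/-- `a_d = (2/√π) Γ(d/2+1)^{1/d}/√d` -/
noncomputable def ad (d : ℕ) : ℝ :=
  2 / √Real.pi * ((Real.Gamma ((d : ℝ) / 2 + 1)) ^ ((1 : ℝ) / d) / √d)

/-- `θ_d^{1/d}` -/
noncomputable def ud (d : ℕ) : ℝ := theta d ^ ((1 : ℝ) / d)

lemma ud_nonneg (d : ℕ) : 0 ≤ ud d := Real.rpow_nonneg (theta_nonneg d) _

lemma ud_le (d : ℕ) : ud d ≤ 1 :=
  Real.rpow_le_one (theta_nonneg d) (theta_le_one d) (by positivity)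

lemma ad_nonneg (d : ℕ) : 0 ≤ ad d := by
  unfold ad
  have : 0 < Real.Gamma ((d : ℝ) / 2 + 1) := Real.Gamma_pos_of_pos (by positivity)
  positivity

lemma kap_eq {d : ℕ} (hd : 1 ≤ d) : kap d / √d = ad d * ud d := by
  have hG : 0 < Real.Gamma ((d : ℝ) / 2 + 1) := Real.Gamma_pos_of_pos (by positivity)
  have hθ := theta_nonneg d
  have hpi : (0 : ℝ) < √Real.pi := Real.sqrt_pos.2 Real.pi_pos
  have hd0 : (d : ℝ) ≠ 0 := by
    have : d ≠ 0 := by omega
    exact_mod_cast this
  unfold kap ad ud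
  rw [vol1_eq hd]
  have e1 : theta d / (√Real.pi ^ d / Real.Gamma ((d : ℝ) / 2 + 1))
      = theta d * Real.Gamma ((d : ℝ) / 2 + 1) / √Real.pi ^ d := by
    field_simp
  have e2 : (√Real.pi ^ d) ^ ((1 : ℝ) / d) = √Real.pi := by
    rw [← Real.rpow_natCast, ← Real.rpow_mul hpi.le, mul_one_div_cancel hd0, Real.rpow_one]
  rw [e1, Real.div_rpow (by positivity) (by positivity), e2, Real.mul_rpow hθ hG.le]
  ring

/-- the constant `2/√(2πe)` -/
noncomputable def cst : ℝ := 2 / √(2 * Real.pi * Real.exp 1)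

lemma cst_pos : 0 < cst := by unfold cst; positivity

lemma ad_tendsto : Tendsto ad atTop (𝓝 cst) := by
  have h := gamma_root.const_mul (2 / √Real.pi)
  have e : 2 / √Real.pi * (1 / √(2 * Real.exp 1)) = cst := by
    unfold cst
    rw [div_mul_div_comm, mul_one, ← Real.sqrt_mul Real.pi_pos.le]
    congr 2
    ring
  rw [e] at h
  exact h

lemma alpha'_bounds {d : ℕ} (hd : 2 ≤ d) :
    ad d * ud d ≤ alpha' d ∧ alpha' d ≤ ad d * ud d + ad d / ((d : ℝ) - 1) := by
  have hd' : (2 : ℝ) ≤ d := by exact_mod_cast hd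
  have hs : 0 < √(d : ℝ) := Real.sqrt_pos.2 (by linarith)
  have h1 := alpha_lower hd
  have h2 := alpha_upper hd
  rw [← kap_eq (by omega)]
  unfold alpha'
  constructor
  · exact div_le_div_of_nonneg_right h1 hs.le
  · have h3 := div_le_div_of_nonneg_right h2 hs.le
    refine h3.trans ?_
    have e : (d : ℝ) / ((d : ℝ) - 1) * kap d / √d = kap d / √d + (kap d / √d) / ((d : ℝ) - 1) := by
      have : (d : ℝ) - 1 ≠ 0 := by linarith
      field_simp
      ring
    rw [e, kap_eq (by omega)]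
    have h4 : ad d * ud d ≤ ad d := mul_le_of_le_one_right (ad_nonneg d) (ud_le d)
    have h5 : (0 : ℝ) ≤ (d : ℝ) - 1 := by linarith
    have h6 := div_le_div_of_nonneg_right h4 h5
    linarith

lemma main_tendsto : Tendsto (fun d : ℕ => alpha' d - cst * ud d) atTop (𝓝 0) := by
  have h1 : Tendsto (fun d : ℕ => |ad d - cst|) atTop (𝓝 0) := by
    have := (ad_tendsto.sub_const cst).abs
    simpa using this
  have h2 : Tendsto (fun d : ℕ => |ad d - cst| + ad d / ((d : ℝ) - 1)) atTop (𝓝 (0 + 0)) := by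
    apply h1.add
    apply ad_tendsto.div_atTop
    exact (tendsto_atTop_add_const_right _ (-1) tendsto_natCast_atTop_atTop)
  rw [add_zero] at h2
  have h1' : Tendsto (fun d : ℕ => -|ad d - cst|) atTop (𝓝 0) := by
    have := h1.neg
    simpa using this
  refine tendsto_of_tendsto_of_tendsto_of_le_of_le' h1' h2 ?_ ?_
  · filter_upwards [eventually_ge_atTop 2] with d hd
    obtain ⟨h3, h4⟩ := alpha'_bounds hd
    have h5 : |(ad d - cst) * ud d| ≤ |ad d - cst| := by
      rw [abs_mul, abs_of_nonneg (ud_nonneg d)]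
      exact mul_le_of_le_one_right (abs_nonneg _) (ud_le d)
    have h6 := neg_le_of_abs_le h5
    nlinarith
  · filter_upwards [eventually_ge_atTop 2] with d hd
    obtain ⟨h3, h4⟩ := alpha'_bounds hd
    have h5 : |(ad d - cst) * ud d| ≤ |ad d - cst| := by
      rw [abs_mul, abs_of_nonneg (ud_nonneg d)]
      exact mul_le_of_le_one_right (abs_nonneg _) (ud_le d)
    have h6 := le_of_abs_le h5
    nlinarith

lemma limsup_le_aux {x y : ℕ → ℝ} (h : Tendsto (fun n => x n - y n) atTop (𝓝 0))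
    (hx : IsBoundedUnder (· ≥ ·) atTop x) (hy : IsBoundedUnder (· ≤ ·) atTop y)
    (hy' : IsBoundedUnder (· ≥ ·) atTop y) : limsup x atTop ≤ limsup y atTop := by
  apply le_of_forall_pos_le_add
  intro ε hε
  rw [← limsup_add_const atTop y ε hy hy'.isCoboundedUnder_le]
  apply limsup_le_limsup
  · filter_upwards [h.eventually_lt_const hε] with n hn
    linarith
  · exact hx.isCoboundedUnder_le
  · exact isBoundedUnder_le_add hy isBoundedUnder_const

lemma liminf_le_aux {x y : ℕ → ℝ} (h : Tendsto (fun n => x n - y n) atTop (𝓝 0))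
    (hx : IsBoundedUnder (· ≥ ·) atTop x) (hy : IsBoundedUnder (· ≤ ·) atTop y)
    (hy' : IsBoundedUnder (· ≥ ·) atTop y) : liminf x atTop ≤ liminf y atTop := by
  apply le_of_forall_pos_le_add
  intro ε hε
  rw [← liminf_add_const atTop y ε hy.isCoboundedUnder_ge hy']
  apply liminf_le_liminf
  · filter_upwards [h.eventually_lt_const hε] with n hn
    linarith
  · exact hx
  · exact (isBoundedUnder_le_add hy isBoundedUnder_const).isCoboundedUnder_ge

lemma ud_bdd_le : IsBoundedUnder (· ≤ ·) atTop ud := isBoundedUnder_of ⟨1, ud_le⟩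

lemma ud_bdd_ge : IsBoundedUnder (· ≥ ·) atTop ud := isBoundedUnder_of ⟨0, ud_nonneg⟩

lemma cud_bdd_le : IsBoundedUnder (· ≤ ·) atTop (fun d => cst * ud d) :=
  isBoundedUnder_of ⟨cst, fun d => mul_le_of_le_one_right cst_pos.le (ud_le d)⟩

lemma cud_bdd_ge : IsBoundedUnder (· ≥ ·) atTop (fun d => cst * ud d) :=
  isBoundedUnder_of ⟨0, fun d => mul_nonneg cst_pos.le (ud_nonneg d)⟩

lemma alpha'_bdd_le : IsBoundedUnder (· ≤ ·) atTop alpha' := by
  refine ⟨cst + 1, ?_⟩
  rw [eventually_map]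
  filter_upwards [main_tendsto.eventually_lt_const one_pos] with d hd
  have := mul_le_of_le_one_right cst_pos.le (ud_le d)
  linarith

lemma alpha'_bdd_ge : IsBoundedUnder (· ≥ ·) atTop alpha' := by
  refine ⟨-1, ?_⟩
  rw [eventually_map]
  filter_upwards [main_tendsto.eventually_const_lt (by norm_num : (-1 : ℝ) < 0)] with d hd
  have := mul_nonneg cst_pos.le (ud_nonneg d)
  simp only [ge_iff_le]
  linarith

lemma main_tendsto' : Tendsto (fun d : ℕ => cst * ud d - alpha' d) atTop (𝓝 0) := by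
  have := main_tendsto.neg
  simpa using this

theorem limsup_alpha' : limsup alpha' atTop = cst * limsup ud atTop := by
  have h1 : limsup alpha' atTop = limsup (fun d => cst * ud d) atTop :=
    le_antisymm (limsup_le_aux main_tendsto alpha'_bdd_ge cud_bdd_le cud_bdd_ge)
      (limsup_le_aux main_tendsto' cud_bdd_ge alpha'_bdd_le alpha'_bdd_ge)
  rw [h1]
  have hmono : Monotone (fun x : ℝ => cst * x) := fun x y hxy =>
    mul_le_mul_of_nonneg_left hxy cst_pos.le
  exact (hmono.map_limsup_of_continuousAt ud (by fun_prop) ud_bdd_le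
    ud_bdd_ge.isCoboundedUnder_le).symm

theorem liminf_alpha' : liminf alpha' atTop = cst * liminf ud atTop := by
  have h1 : liminf alpha' atTop = liminf (fun d => cst * ud d) atTop :=
    le_antisymm (liminf_le_aux main_tendsto alpha'_bdd_ge cud_bdd_le cud_bdd_ge)
      (liminf_le_aux main_tendsto' cud_bdd_ge alpha'_bdd_le alpha'_bdd_ge)
  rw [h1]
  have hmono : Monotone (fun x : ℝ => cst * x) := fun x y hxy =>
    mul_le_mul_of_nonneg_left hxy cst_pos.le
  exact (hmono.map_liminf_of_continuousAt ud (by fun_prop) ud_bdd_le.isCoboundedUnder_ge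
    ud_bdd_ge).symm

theorem exists_lim_iff :
    (∃ L : ℝ, Tendsto alpha' atTop (𝓝 L)) ↔ ∃ t : ℝ, Tendsto ud atTop (𝓝 t) := by
  constructor
  · rintro ⟨L, hL⟩
    refine ⟨L / cst, ?_⟩
    have h1 := (main_tendsto'.add hL).div_const cst
    rw [zero_add] at h1
    refine h1.congr ?_
    intro d
    have := cst_pos.ne'
    field_simp
    ring
  · rintro ⟨t, ht⟩
    refine ⟨cst * t, ?_⟩
    have h1 := main_tendsto.add (ht.const_mul cst)
    rw [zero_add] at h1
    refine h1.congr ?_
    intro d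
    ring

end Pool.Agent.helper55.TSP
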