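import Mathlib

/-!
The extremal function `f(k)` and general facts about it.
-/

set_option autoImplicit false

namespace Pool.Agent.helper55.Fk

open Classical in
/-- The set of maximum degrees of finite graphs `G` with chromatic number `k` that contain no
complete subgraph on `k - 1` vertices. -/
def degSet (k : ℕ) : Set ℕ :=
  {D | ∃ (n : ℕ) (G : SimpleGraph (Fin n)),
    G.chromaticNumber = k ∧ G.CliqueFree (k - 1) ∧ G.maxDegree = D}

/-- `f(k)`: the minimum of the maximum degree over all such graphs. -/
noncomputable def f (k : ℕ) : ℕ := sInf (degSet k)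

lemma colorable_induce_iff {V : Type*} [Fintype V] [DecidableEq V] (G : SimpleGraph V)
    (S : Finset V) (m : ℕ) : (G.induce (S : Set V)).Colorable m ↔
      ∃ c : V → ℕ, (∀ x ∈ S, c x < m) ∧ ∀ x ∈ S, ∀ y ∈ S, G.Adj x y → c x ≠ c y := by
  classical
  constructor
  · rintro ⟨c⟩
    refine ⟨fun x => if h : x ∈ S then (c ⟨x, h⟩ : Fin m).val else 0, ?_, ?_⟩
    · intro x hx
      simp only [hx, dite_true]
      exact (c ⟨x, hx⟩).2
    · intro x hx y hy hadj
      simp only [hx, hy, dite_true]
      intro heq
      have h1 : (G.induce (S : Set V)).Adj ⟨x, hx⟩ ⟨y, hy⟩ := hadj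
      exact c.valid h1 (Fin.ext heq)
  · rintro ⟨c, h1, h2⟩
    refine ⟨SimpleGraph.Coloring.mk (fun x : (S : Set V) => (⟨c x, h1 x x.2⟩ : Fin m)) ?_⟩
    intro x y hadj heq
    exact h2 x x.2 y y.2 hadj (congrArg Fin.val heq)

/-- a subset of vertices inducing a subgraph of chromatic number exactly `k` -/
lemma exists_critical {V : Type*} [Fintype V] [DecidableEq V] (G : SimpleGraph V) (k : ℕ)
    (hk : 1 ≤ k) (h : ¬ G.Colorable (k - 1)) :
    ∃ S : Finset V, (G.induce (S : Set V)).chromaticNumber = k := by
  classical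
  have hex : ∃ S : Finset V, ¬ (G.induce (S : Set V)).Colorable (k - 1) := by
    refine ⟨Finset.univ, fun hc => h ?_⟩
    refine hc.of_hom ⟨fun v => ⟨v, by simp⟩, ?_⟩
    intro a b hab
    simpa using hab
  obtain ⟨S, hS, hmin⟩ := WellFounded.has_min (measure (fun S : Finset V => S.card)).wf
    {S : Finset V | ¬ (G.induce (S : Set V)).Colorable (k - 1)} hex
  have hne : S.Nonempty := by
    by_contra hcon
    rw [Finset.not_nonempty_iff_eq_empty] at hcon
    subst hcon
    apply hS
    rw [colorable_induce_iff]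
    exact ⟨fun _ => 0, by simp, by simp⟩
  obtain ⟨v, hv⟩ := hne
  have hcol : (G.induce ((S.erase v : Finset V) : Set V)).Colorable (k - 1) := by
    by_contra hcon
    exact hmin (S.erase v) hcon (Finset.card_erase_lt_of_mem hv)
  refine ⟨S, ?_⟩
  have hcolk : (G.induce (S : Set V)).Colorable k := by
    rw [colorable_induce_iff] at hcol ⊢
    obtain ⟨c, h1, h2⟩ := hcol
    refine ⟨fun x => if x = v then k - 1 else c x, ?_, ?_⟩
    · intro x hx
      by_cases hxv : x = v
      · simp only [hxv, if_true]; omega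
      · simp only [hxv, if_false]
        have := h1 x (Finset.mem_erase.2 ⟨hxv, hx⟩)
        omega
    · intro x hx y hy hadj
      by_cases hxv : x = v
      · have hyv : y ≠ v := fun hh => hadj.ne (hxv.trans hh.symm)
        simp only [hxv, hyv, if_true, if_false]
        have := h1 y (Finset.mem_erase.2 ⟨hyv, hy⟩)
        omega
      · by_cases hyv : y = v
        · simp only [hxv, hyv, if_true, if_false]
          have := h1 x (Finset.mem_erase.2 ⟨hxv, hx⟩)
          omega
        · simp only [hxv, hyv, if_false]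
          exact h2 x (Finset.mem_erase.2 ⟨hxv, hx⟩) y (Finset.mem_erase.2 ⟨hyv, hy⟩) hadj
  apply le_antisymm hcolk.chromaticNumber_le
  rw [SimpleGraph.le_chromaticNumber_iff_colorable]
  intro m hm
  by_contra hcon
  push Not at hcon
  have hcon' : m < k := by exact_mod_cast hcon
  have : m ≤ k - 1 := by omega
  exact hS (hm.mono this)

/-- members of `degSet k` from graphs which need not have chromatic number exactly `k` -/
theorem exists_mem {V : Type*} [Fintype V] [DecidableEq V] (G : SimpleGraph V)
    [DecidableRel G.Adj] {k D : ℕ} (hk : 1 ≤ k) (h : ¬ G.Colorable (k - 1))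
    (hω : G.CliqueFree (k - 1)) (hD : ∀ v, G.degree v ≤ D) : ∃ d ∈ degSet k, d ≤ D := by
  classical
  obtain ⟨S, hS⟩ := exists_critical G k hk h
  set H := G.induce (S : Set V) with hH
  have hcard : Fintype.card (S : Set V) = S.card := by simp
  set e : (S : Set V) ≃ Fin S.card := Fintype.equivFinOfCardEq hcard with he
  obtain ⟨K, ⟨iso⟩⟩ : ∃ K : SimpleGraph (Fin S.card), Nonempty (H ≃g K) :=
    ⟨H.map e.toEmbedding, ⟨SimpleGraph.Iso.map e H⟩⟩
  have hχ : K.chromaticNumber = k := by
    rw [← SimpleGraph.chromaticNumber_congr iso]; exact hS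
  have hcf : K.CliqueFree (k - 1) := by
    have h1 : H.CliqueFree (k - 1) := hω.comap (SimpleGraph.Embedding.induce _).isContained
    exact h1.comap iso.symm.isContained
  refine ⟨_, ⟨S.card, K, hχ, hcf, rfl⟩, ?_⟩
  apply SimpleGraph.maxDegree_le_of_forall_degree_le
  intro v
  rw [← SimpleGraph.Iso.degree_eq iso.symm v]
  refine le_trans ?_ (hD ((iso.symm v : (S : Set V)) : V))
  rw [← SimpleGraph.card_neighborFinset_eq_degree, ← SimpleGraph.card_neighborFinset_eq_degree,
    ← Finset.card_map (Function.Embedding.subtype _)]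
  apply Finset.card_le_card
  intro w hw
  rw [Finset.mem_map] at hw
  obtain ⟨w', hw', rfl⟩ := hw
  rw [SimpleGraph.mem_neighborFinset] at hw' ⊢
  exact hw'

/-- the minimum defining `f k` is attained and is at most `B` -/
def Good (k B : ℕ) : Prop := IsLeast (degSet k) (f k) ∧ f k ≤ B

theorem f_le {V : Type*} [Fintype V] [DecidableEq V] (G : SimpleGraph V) [DecidableRel G.Adj]
    {k D : ℕ} (hk : 1 ≤ k) (h : ¬ G.Colorable (k - 1)) (hω : G.CliqueFree (k - 1))
    (hD : ∀ v, G.degree v ≤ D) : Good k D := by
  obtain ⟨d, hd, hle⟩ := exists_mem G hk h hω hD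
  exact ⟨⟨Nat.sInf_mem ⟨d, hd⟩, fun x hx => Nat.sInf_le hx⟩, (Nat.sInf_le hd).trans hle⟩

/-- counting: if every colour class has at most `a` vertices and `a q < |V|`, then there is no
proper colouring with `q` colours -/
lemma not_colorable_of_card {V : Type*} [Fintype V] [DecidableEq V] (G : SimpleGraph V)
    {a q : ℕ} (hα : ∀ T : Finset V, (∀ x ∈ T, ∀ y ∈ T, ¬ G.Adj x y) → T.card ≤ a)
    (hcard : a * q < Fintype.card V) : ¬ G.Colorable q := by
  rintro ⟨c⟩
  have h1 : Fintype.card V = ∑ i : Fin q, (Finset.univ.filter (fun v => c v = i)).card := by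
    rw [← Finset.card_univ]
    exact Finset.card_eq_sum_card_fiberwise (fun v _ => Finset.mem_univ (c v))
  have h2 : ∑ i : Fin q, (Finset.univ.filter (fun v => c v = i)).card ≤ ∑ _i : Fin q, a := by
    apply Finset.sum_le_sum
    intro i _
    apply hα
    intro x hx y hy hadj
    simp only [Finset.mem_filter, Finset.mem_univ, true_and] at hx hy
    exact c.valid hadj (hx.trans hy.symm)
  simp only [Finset.sum_const, Finset.card_univ, Fintype.card_fin, smul_eq_mul] at h2
  rw [← h1] at h2
  have : q * a = a * q := Nat.mul_comm _ _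
  omega

end Pool.Agent.helper55.Fk
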