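import Pool.Agent.helper55.FkDefs

/-!
Two families of graphs: clique blow-ups of the 5-cycle, and the join of two 5-cycles and a
complete graph.
-/

set_option autoImplicit false

namespace Pool.Agent.helper55.Fk

/-- adjacency in the 5-cycle -/
abbrev C5 (i j : Fin 5) : Prop := i + 1 = j ∨ j + 1 = i

lemma C5_triple : ∀ i j l : Fin 5, ¬ (i = j ∨ C5 i j) → ¬ (i = l ∨ C5 i l) →
    ¬ (j = l ∨ C5 j l) → False := by decide

lemma C5_clique : ∀ P : Finset (Fin 5), (∀ i ∈ P, ∀ j ∈ P, i = j ∨ C5 i j) →
    ∃ i : Fin 5, P ⊆ {i, i + 1} := by decide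

lemma C5_irrefl : ∀ i : Fin 5, ¬ C5 i i := by decide

lemma C5_nbr : ∀ i j : Fin 5, (i = j ∨ C5 i j) → (j = i + 4 ∨ j = i ∨ j = i + 1) := by decide

section blow

variable (a : Fin 5 → ℕ)

/-- the blow-up of the 5-cycle by complete graphs of sizes `a i` -/
def blow : SimpleGraph (Σ i : Fin 5, Fin (a i)) where
  Adj x y := x ≠ y ∧ (x.1 = y.1 ∨ C5 x.1 y.1)
  symm := ⟨fun x y h => ⟨h.1.symm, by
    rcases h.2 with h | h | h
    · exact Or.inl h.symm
    · exact Or.inr (Or.inr h)
    · exact Or.inr (Or.inl h)⟩⟩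
  loopless := ⟨fun x h => h.1 rfl⟩

instance : DecidableRel (blow a).Adj := fun x y => by
  unfold blow; infer_instance

lemma blow_indep (T : Finset (Σ i : Fin 5, Fin (a i)))
    (hT : ∀ x ∈ T, ∀ y ∈ T, ¬ (blow a).Adj x y) : T.card ≤ 2 := by
  by_contra hcon
  push Not at hcon
  obtain ⟨x, hx, y, hy, z, hz, hxy, hxz, hyz⟩ := Finset.two_lt_card.1 hcon
  have h1 := hT x hx y hy
  have h2 := hT x hx z hz
  have h3 := hT y hy z hz
  simp only [blow, not_and] at h1 h2 h3
  exact C5_triple x.1 y.1 z.1 (h1 hxy) (h2 hxz) (h3 hyz)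

lemma card_part (i : Fin 5) :
    (Finset.univ.filter (fun x : Σ i : Fin 5, Fin (a i) => x.1 = i)).card = a i := by
  have h1 : Finset.univ.filter (fun x : Σ i : Fin 5, Fin (a i) => x.1 = i)
      = (Finset.univ : Finset (Fin (a i))).map (Function.Embedding.sigmaMk i) := by
    ext ⟨j, u⟩
    simp only [Finset.mem_filter, Finset.mem_univ, true_and, Finset.mem_map,
      Function.Embedding.sigmaMk_apply, Sigma.mk.injEq]
    constructor
    · rintro rfl
      exact ⟨u, rfl, HEq.rfl⟩
    · rintro ⟨w, h, _⟩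
      exact h.symm
  rw [h1, Finset.card_map, Finset.card_univ, Fintype.card_fin]

lemma blow_clique {q : ℕ} (h : ∀ i : Fin 5, a i + a (i + 1) < q) : (blow a).CliqueFree q := by
  intro s hs
  rw [SimpleGraph.isNClique_iff, SimpleGraph.isClique_iff] at hs
  obtain ⟨h1, h2⟩ := hs
  obtain ⟨i, hi⟩ := C5_clique (s.image Sigma.fst) (by
    intro i hi j hj
    rw [Finset.mem_image] at hi hj
    obtain ⟨x, hx, rfl⟩ := hi
    obtain ⟨y, hy, rfl⟩ := hj
    by_cases hxy : x = y
    · exact Or.inl (by rw [hxy])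
    · exact (h1 hx hy hxy).2)
  have h3 : s ⊆ Finset.univ.filter (fun x : Σ i : Fin 5, Fin (a i) => x.1 = i) ∪
      Finset.univ.filter (fun x : Σ i : Fin 5, Fin (a i) => x.1 = i + 1) := by
    intro x hx
    have := hi (Finset.mem_image_of_mem _ hx)
    simp only [Finset.mem_insert, Finset.mem_singleton] at this
    simp only [Finset.mem_union, Finset.mem_filter, Finset.mem_univ, true_and]
    exact this
  have h4 := (Finset.card_le_card h3).trans (Finset.card_union_le _ _)
  rw [card_part, card_part, h2] at h4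
  have := h i
  omega

lemma blow_degree {D : ℕ} (h : ∀ i : Fin 5, a (i + 4) + a i + a (i + 1) ≤ D + 1)
    (v : Σ i : Fin 5, Fin (a i)) : (blow a).degree v ≤ D := by
  classical
  rw [← SimpleGraph.card_neighborFinset_eq_degree]
  have h3 : insert v ((blow a).neighborFinset v) ⊆
      (Finset.univ.filter (fun x : Σ i : Fin 5, Fin (a i) => x.1 = v.1 + 4) ∪
      Finset.univ.filter (fun x : Σ i : Fin 5, Fin (a i) => x.1 = v.1)) ∪
      Finset.univ.filter (fun x : Σ i : Fin 5, Fin (a i) => x.1 = v.1 + 1) := by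
    intro x hx
    simp only [Finset.mem_union, Finset.mem_filter, Finset.mem_univ, true_and]
    rw [Finset.mem_insert, SimpleGraph.mem_neighborFinset] at hx
    rcases hx with rfl | hx
    · exact Or.inl (Or.inr rfl)
    · have := C5_nbr v.1 x.1 hx.2
      tauto
  have h4 := (Finset.card_le_card h3).trans ((Finset.card_union_le _ _).trans
    (Nat.add_le_add_right (Finset.card_union_le _ _) _))
  rw [card_part, card_part, card_part, Finset.card_insert_of_notMem (by simp)] at h4
  have := h v.1
  omega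

theorem f_le_blow {k D : ℕ} (hk : 1 ≤ k) (hsum : 2 * k - 1 ≤ ∑ i, a i)
    (h1 : ∀ i : Fin 5, a i + a (i + 1) < k - 1)
    (h2 : ∀ i : Fin 5, a (i + 4) + a i + a (i + 1) ≤ D + 1) : Good k D := by
  classical
  apply f_le (blow a) hk _ (blow_clique a h1) (blow_degree a h2)
  apply not_colorable_of_card (blow a) (a := 2) (blow_indep a)
  rw [Fintype.card_sigma]
  simp only [Fintype.card_fin]
  omega

end blow

section join

/-- the join of two 5-cycles and a complete graph on `m` vertices -/
def jn (m : ℕ) : SimpleGraph ((Fin 2 × Fin 5) ⊕ Fin m) where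
  Adj x y := match x, y with
    | Sum.inl p, Sum.inl q => p.1 ≠ q.1 ∨ C5 p.2 q.2
    | Sum.inl _, Sum.inr _ => True
    | Sum.inr _, Sum.inl _ => True
    | Sum.inr u, Sum.inr v => u ≠ v
  symm := ⟨by
    rintro (p | u) (q | v) h
    · rcases h with h | h | h
      · exact Or.inl h.symm
      · exact Or.inr (Or.inr h)
      · exact Or.inr (Or.inl h)
    · trivial
    · trivial
    · exact Ne.symm h⟩
  loopless := ⟨by
    rintro (p | u) h
    · rcases h with h | h
      · exact h rfl
      · exact C5_irrefl _ h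
    · exact h rfl⟩

lemma C5_pair : ∀ i j l : Fin 5, i ≠ j → i ≠ l → j ≠ l → C5 i j ∨ C5 i l ∨ C5 j l := by decide

lemma C5_tri : ∀ i j l : Fin 5, C5 i j → C5 i l → C5 j l → False := by decide

lemma jn_not_colorable (m : ℕ) : ¬ (jn m).Colorable (m + 5) := by
  classical
  rintro ⟨c⟩
  -- the colours of the three parts
  set I : Fin 2 → Finset (Fin (m + 5)) := fun s => Finset.univ.image (fun i : Fin 5 =>
    c (Sum.inl (s, i))) with hI
  set J : Finset (Fin (m + 5)) := Finset.univ.image (fun u : Fin m => c (Sum.inr u)) with hJ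
  have hIcard : ∀ s, 3 ≤ (I s).card := by
    intro s
    by_contra hcon
    push Not at hcon
    have h1 : ∀ y ∈ I s, (Finset.univ.filter (fun i : Fin 5 => c (Sum.inl (s, i)) = y)).card ≤ 2 := by
      intro y _
      by_contra hc
      push Not at hc
      obtain ⟨i, hi, j, hj, l, hl, hij, hil, hjl⟩ := Finset.two_lt_card.1 hc
      simp only [Finset.mem_filter, Finset.mem_univ, true_and] at hi hj hl
      rcases C5_pair i j l hij hil hjl with h | h | h
      · exact c.valid (show (jn m).Adj (Sum.inl (s, i)) (Sum.inl (s, j)) from Or.inr h)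
          (hi.trans hj.symm)
      · exact c.valid (show (jn m).Adj (Sum.inl (s, i)) (Sum.inl (s, l)) from Or.inr h)
          (hi.trans hl.symm)
      · exact c.valid (show (jn m).Adj (Sum.inl (s, j)) (Sum.inl (s, l)) from Or.inr h)
          (hj.trans hl.symm)
    have h2 := Finset.card_eq_sum_card_fiberwise (s := (Finset.univ : Finset (Fin 5))) (t := I s)
      (f := fun i => c (Sum.inl (s, i))) (by
        intro i _
        exact Finset.mem_image_of_mem _ (Finset.mem_univ i))
    have h3 : ∑ y ∈ I s, (Finset.univ.filter (fun i : Fin 5 => c (Sum.inl (s, i)) = y)).card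
        ≤ ∑ _y ∈ I s, 2 := Finset.sum_le_sum h1
    simp only [Finset.sum_const, smul_eq_mul, Finset.card_univ, Fintype.card_fin] at h2 h3
    omega
  have hJcard : J.card = m := by
    rw [hJ, Finset.card_image_of_injective, Finset.card_univ, Fintype.card_fin]
    intro u v huv
    by_contra hne
    exact c.valid (show (jn m).Adj (Sum.inr u) (Sum.inr v) from hne) huv
  have hdisj : Disjoint (I 0) (I 1) := by
    rw [Finset.disjoint_left]
    intro y h0 h1
    rw [hI] at h0 h1
    simp only [Finset.mem_image, Finset.mem_univ, true_and] at h0 h1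
    obtain ⟨i, hi⟩ := h0
    obtain ⟨j, hj⟩ := h1
    exact c.valid (show (jn m).Adj (Sum.inl (0, i)) (Sum.inl (1, j)) from Or.inl (by simp))
      (hi.trans hj.symm)
  have hdisj2 : Disjoint (I 0 ∪ I 1) J := by
    rw [Finset.disjoint_left]
    intro y h0 h1
    rw [hI] at h0
    rw [hJ] at h1
    simp only [Finset.mem_union, Finset.mem_image, Finset.mem_univ, true_and] at h0 h1
    obtain ⟨u, hu⟩ := h1
    rcases h0 with ⟨i, hi⟩ | ⟨i, hi⟩
    · exact c.valid (show (jn m).Adj (Sum.inl (0, i)) (Sum.inr u) from trivial)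
        (hi.trans hu.symm)
    · exact c.valid (show (jn m).Adj (Sum.inl (1, i)) (Sum.inr u) from trivial)
        (hi.trans hu.symm)
  have h5 : ((I 0 ∪ I 1) ∪ J).card ≤ m + 5 := by
    have := Finset.card_le_univ ((I 0 ∪ I 1) ∪ J)
    rwa [Fintype.card_fin] at this
  rw [Finset.card_union_of_disjoint hdisj2, Finset.card_union_of_disjoint hdisj, hJcard] at h5
  have := hIcard 0
  have := hIcard 1
  omega

lemma jn_clique (m : ℕ) : (jn m).CliqueFree (m + 5) := by
  classical
  intro s hs
  rw [SimpleGraph.isNClique_iff, SimpleGraph.isClique_iff] at hs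
  obtain ⟨h1, h2⟩ := hs
  have hsub : s ⊆ (s.filter (fun x => ∃ i, x = Sum.inl ((0 : Fin 2), i)) ∪
      s.filter (fun x => ∃ i, x = Sum.inl ((1 : Fin 2), i))) ∪
      (Finset.univ : Finset (Fin m)).image Sum.inr := by
    intro x hx
    simp only [Finset.mem_union, Finset.mem_filter, Finset.mem_image, Finset.mem_univ, true_and]
    rcases x with ⟨t, i⟩ | u
    · left
      fin_cases t
      · left; exact ⟨hx, i, rfl⟩
      · right; exact ⟨hx, i, rfl⟩
    · right; exact ⟨u, rfl⟩
  have hpart : ∀ t : Fin 2, (s.filter (fun x => ∃ i, x = Sum.inl (t, i))).card ≤ 2 := by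
    intro t
    by_contra hcon
    push Not at hcon
    obtain ⟨x, hx, y, hy, z, hz, hxy, hxz, hyz⟩ := Finset.two_lt_card.1 hcon
    simp only [Finset.mem_filter] at hx hy hz
    obtain ⟨hx, i, rfl⟩ := hx
    obtain ⟨hy, j, rfl⟩ := hy
    obtain ⟨hz, l, rfl⟩ := hz
    have e1 : C5 i j := by
      rcases h1 hx hy hxy with h | h
      · exact absurd rfl h
      · exact h
    have e2 : C5 i l := by
      rcases h1 hx hz hxz with h | h
      · exact absurd rfl h
      · exact h
    have e3 : C5 j l := by
      rcases h1 hy hz hyz with h | h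
      · exact absurd rfl h
      · exact h
    exact C5_tri i j l e1 e2 e3
  have h4 := (Finset.card_le_card hsub).trans ((Finset.card_union_le _ _).trans
    (Nat.add_le_add_right (Finset.card_union_le _ _) _))
  have h5 : ((Finset.univ : Finset (Fin m)).image
      (Sum.inr : Fin m → (Fin 2 × Fin 5) ⊕ Fin m)).card ≤ m := by
    refine Finset.card_image_le.trans ?_
    simp
  have := hpart 0
  have := hpart 1
  omega

theorem f_le_join {k : ℕ} (hk : 6 ≤ k) : Good k (k + 3) := by
  classical
  obtain ⟨m, rfl⟩ : ∃ m, k = m + 6 := ⟨k - 6, by omega⟩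
  have e : m + 6 - 1 = m + 5 := by omega
  apply f_le (jn m) (by omega)
  · rw [e]; exact jn_not_colorable m
  · rw [e]; exact jn_clique m
  · intro v
    have h1 := (jn m).degree_lt_card_verts v
    simp only [Fintype.card_sum, Fintype.card_prod, Fintype.card_fin] at h1
    omega

end join

/-- the sizes of the parts of the blow-ups -/
def sz (k : ℕ) : Fin 5 → ℕ :=
  fun i => (2 * k - 1) / 5 + (if (i : ℕ) ∈ ([[], [0], [0, 2], [0, 1, 3], [0, 1, 2, 3]].getD
    ((2 * k - 1) % 5) ([] : List ℕ)) then 1 else 0)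

theorem f_le_main {k : ℕ} (hk : 8 ≤ k) : Good k (k + min 3 ((k - 4) / 5)) := by
  by_cases h19 : 19 ≤ k
  · have h1 : min 3 ((k - 4) / 5) = 3 := by
      rw [min_eq_left]
      omega
    rw [h1]
    exact f_le_join (by omega)
  · push Not at h19
    apply f_le_blow (sz k) (by omega)
    · interval_cases k <;> decide
    · interval_cases k <;> decide
    · interval_cases k <;> decide

end Pool.Agent.helper55.Fk
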