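import Pool.Agent.helper55.TSPDefs

/-!
Sphere packings in `ℝ^d` versus finite sets of points in the unit cube.
-/

set_option autoImplicit false

open MeasureTheory Filter Topology

namespace Pool.Agent.helper55.TSP

variable {d : ℕ}

/-- volume of the unit ball -/
noncomputable def vol1 (d : ℕ) : ℝ := volume.real (Metric.ball (0 : EuclideanSpace ℝ (Fin d)) 1)

lemma vol1_pos (d : ℕ) : 0 < vol1 d := by
  unfold vol1
  rw [measureReal_def]
  exact ENNReal.toReal_pos (Metric.measure_ball_pos volume _ one_pos).ne' measure_ball_lt_top.ne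

lemma vball (x : EuclideanSpace ℝ (Fin d)) {r : ℝ} (hr : 0 < r) :
    volume.real (Metric.ball x r) = r ^ d * vol1 d := by
  unfold vol1
  rw [measureReal_def, Measure.addHaar_ball_of_pos _ _ hr, ENNReal.toReal_mul,
    ENNReal.toReal_ofReal (by positivity), finrank_euclideanSpace_fin, measureReal_def]

/-- lattice vectors -/
noncomputable def lv (t : ℝ) (z : Fin d → ℤ) : EuclideanSpace ℝ (Fin d) :=
  WithLp.toLp 2 (fun i => t * (z i : ℝ))

@[simp] lemma lv_apply (t : ℝ) (z : Fin d → ℤ) (i : Fin d) : lv t z i = t * z i := rfl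

/-- cells of the cubic lattice -/
def cell (t : ℝ) (z : Fin d → ℤ) : Set (EuclideanSpace ℝ (Fin d)) :=
  {x | ∀ i, t * z i ≤ x i ∧ x i < t * (z i + 1)}

lemma cell_eq_preimage (t : ℝ) (z : Fin d → ℤ) :
    cell t z = WithLp.ofLp ⁻¹' (Set.univ.pi fun i => Set.Ico (t * (z i : ℝ)) (t * (z i + 1))) := by
  ext x
  simp [cell, Set.mem_pi]

lemma meas_cell (t : ℝ) (z : Fin d → ℤ) : MeasurableSet (cell t z) := by
  rw [cell_eq_preimage]
  exact (PiLp.volume_preserving_ofLp (Fin d)).measurable
    (MeasurableSet.univ_pi fun i => measurableSet_Ico)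

lemma vol_cell {t : ℝ} (ht : 0 < t) (z : Fin d → ℤ) : volume.real (cell t z) = t ^ d := by
  rw [measureReal_def, cell_eq_preimage,
    (PiLp.volume_preserving_ofLp (Fin d)).measure_preimage
      (MeasurableSet.univ_pi fun i => measurableSet_Ico).nullMeasurableSet, Real.volume_pi_Ico]
  have : ∀ i : Fin d, t * ((z i : ℝ) + 1) - t * z i = t := fun i => by ring
  simp only [this, Finset.prod_const, Finset.card_univ, Fintype.card_fin]
  rw [← ENNReal.ofReal_pow ht.le, ENNReal.toReal_ofReal (by positivity)]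

lemma cell_disjoint {t : ℝ} (ht : 0 < t) {z z' : Fin d → ℤ} (h : z ≠ z') :
    Disjoint (cell t z) (cell t z') := by
  rw [Set.disjoint_left]
  intro x hx hx'
  apply h
  ext i
  obtain ⟨h1, h2⟩ := hx i
  obtain ⟨h3, h4⟩ := hx' i
  have h5 : (z i : ℝ) < z' i + 1 := by
    by_contra hcon
    push Not at hcon
    have := mul_le_mul_of_nonneg_left hcon ht.le
    linarith
  have h6 : (z' i : ℝ) < z i + 1 := by
    by_contra hcon
    push Not at hcon
    have := mul_le_mul_of_nonneg_left hcon ht.le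
    linarith
  have h7 : z i < z' i + 1 := by exact_mod_cast h5
  have h8 : z' i < z i + 1 := by exact_mod_cast h6
  omega

/-- the index of the cell of a point -/
noncomputable def idx (t : ℝ) (x : EuclideanSpace ℝ (Fin d)) : Fin d → ℤ := fun i => ⌊x i / t⌋

lemma mem_cell_idx {t : ℝ} (ht : 0 < t) (x : EuclideanSpace ℝ (Fin d)) : x ∈ cell t (idx t x) := by
  intro i
  constructor
  · have := Int.floor_le (x i / t)
    rw [le_div_iff₀ ht] at this
    simp only [idx]
    linarith
  · have := Int.lt_floor_add_one (x i / t)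
    rw [div_lt_iff₀ ht] at this
    simp only [idx]
    linarith

lemma norm_le_of_coord {c : ℝ} (hc : 0 ≤ c) (x : EuclideanSpace ℝ (Fin d)) (h : ∀ i, |x i| ≤ c) :
    ‖x‖ ≤ c * √d := by
  rw [EuclideanSpace.norm_eq]
  have h1 : ∑ i, ‖x i‖ ^ 2 ≤ c ^ 2 * d := by
    calc ∑ i, ‖x i‖ ^ 2 ≤ ∑ _i : Fin d, c ^ 2 := by
          apply Finset.sum_le_sum
          intro i _
          have := h i
          rw [← Real.norm_eq_abs] at this
          gcongr
      _ = c ^ 2 * d := by simp [mul_comm]
  calc √(∑ i, ‖x i‖ ^ 2) ≤ √(c ^ 2 * d) := Real.sqrt_le_sqrt h1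
    _ = c * √d := by rw [Real.sqrt_mul (by positivity), Real.sqrt_sq hc]

lemma cell_norm {t : ℝ} (ht : 0 < t) {z : Fin d → ℤ} {x : EuclideanSpace ℝ (Fin d)}
    (hx : x ∈ cell t z) : ‖x - lv t z‖ ≤ t * √d := by
  apply norm_le_of_coord ht.le
  intro i
  obtain ⟨h1, h2⟩ := hx i
  simp only [PiLp.sub_apply, lv_apply]
  rw [abs_le]
  constructor <;> nlinarith

lemma cube_norm {x : EuclideanSpace ℝ (Fin d)} (hx : x ∈ cube d) : ‖x‖ ≤ √d := by
  have := norm_le_of_coord (c := 1) zero_le_one x (fun i => by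
    obtain ⟨h1, h2⟩ := hx i
    rw [abs_le]; constructor <;> linarith)
  simpa using this

lemma cube_dist {x y : EuclideanSpace ℝ (Fin d)} (hx : x ∈ cube d) (hy : y ∈ cube d) :
    dist x y ≤ √d := by
  rw [dist_eq_norm]
  have := norm_le_of_coord (c := 1) zero_le_one (x - y) (fun i => by
    obtain ⟨h1, h2⟩ := hx i
    obtain ⟨h3, h4⟩ := hy i
    simp only [PiLp.sub_apply]
    rw [abs_le]; constructor <;> linarith)
  simpa using this

lemma coord_le_norm (x : EuclideanSpace ℝ (Fin d)) (i : Fin d) : |x i| ≤ ‖x‖ := by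
  have := PiLp.norm_apply_le x i
  simpa using this

lemma finite_Z {t : ℝ} (ht : 0 < t) (ρ : ℝ) : {z : Fin d → ℤ | ‖lv t z‖ ≤ ρ}.Finite := by
  apply Set.Finite.subset (s := (Set.univ.pi fun _ : Fin d => Set.Icc (-⌈ρ / t⌉) ⌈ρ / t⌉))
  · exact Set.Finite.pi' (fun _ => Set.finite_Icc _ _) |>.subset (by
      intro z hz i
      exact hz i (Set.mem_univ i))
  · intro z hz i _
    have h1 : |t * (z i : ℝ)| ≤ ρ := (coord_le_norm (lv t z) i).trans hz
    rw [abs_mul, abs_of_pos ht] at h1
    have h2 : |(z i : ℝ)| ≤ ρ / t := by rw [le_div_iff₀ ht]; linarith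
    have h3 : |(z i : ℝ)| ≤ (⌈ρ / t⌉ : ℤ) := h2.trans (Int.le_ceil _)
    have h4 : |z i| ≤ ⌈ρ / t⌉ := by exact_mod_cast h3
    exact ⟨(abs_le.1 h4).1, (abs_le.1 h4).2⟩

/-- lattice points in a ball -/
noncomputable def Z (t : ℝ) (ht : 0 < t) (ρ : ℝ) : Finset (Fin d → ℤ) := (finite_Z ht ρ).toFinset

lemma mem_Z {t : ℝ} (ht : 0 < t) (ρ : ℝ) (z : Fin d → ℤ) : z ∈ Z t ht ρ ↔ ‖lv t z‖ ≤ ρ := by
  simp [Z]

lemma Z_lower {t : ℝ} (ht : 0 < t) {ρ : ℝ} (hρ : 0 < ρ - t * √d) :
    (ρ - t * √d) ^ d * vol1 d ≤ (Z (d := d) t ht ρ).card * t ^ d := by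
  rw [← vball (0 : EuclideanSpace ℝ (Fin d)) hρ]
  have hsub : Metric.ball (0 : EuclideanSpace ℝ (Fin d)) (ρ - t * √d)
      ⊆ ⋃ z ∈ Z (d := d) t ht ρ, cell t z := by
    intro x hx
    rw [mem_ball_zero_iff] at hx
    simp only [Set.mem_iUnion]
    refine ⟨idx t x, ?_, mem_cell_idx ht x⟩
    rw [mem_Z]
    have h1 := cell_norm ht (mem_cell_idx ht x)
    have h2 : lv t (idx t x) = x - (x - lv t (idx t x)) := by abel
    rw [h2]
    exact (norm_sub_le _ _).trans (by linarith)
  have hfin : volume (⋃ z ∈ Z (d := d) t ht ρ, cell t z) ≠ ⊤ := by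
    refine ne_top_of_le_ne_top ?_ (measure_biUnion_finset_le _ _)
    rw [ENNReal.sum_ne_top]
    intro z _ htop
    have := vol_cell ht z
    rw [measureReal_def, htop] at this
    simp only [ENNReal.toReal_top] at this
    have : 0 < t ^ d := by positivity
    linarith
  calc volume.real (Metric.ball (0 : EuclideanSpace ℝ (Fin d)) (ρ - t * √d))
      ≤ volume.real (⋃ z ∈ Z (d := d) t ht ρ, cell t z) := measureReal_mono hsub hfin
    _ ≤ ∑ z ∈ Z (d := d) t ht ρ, volume.real (cell t z) := measureReal_biUnion_finset_le _ _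
    _ = (Z (d := d) t ht ρ).card * t ^ d := by
      rw [Finset.sum_congr rfl (fun z _ => vol_cell ht z)]
      simp

lemma cell_ne_top {t : ℝ} (ht : 0 < t) (z : Fin d → ℤ) : volume (cell t z) ≠ ⊤ := by
  intro htop
  have := vol_cell ht z
  rw [measureReal_def, htop] at this
  simp only [ENNReal.toReal_top] at this
  have : 0 < t ^ d := by positivity
  linarith

lemma Z_upper {t : ℝ} (ht : 0 < t) {ρ : ℝ} (hρ : 0 ≤ ρ) :
    (Z (d := d) t ht ρ).card * t ^ d ≤ (ρ + t * √d + 1) ^ d * vol1 d := by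
  have hpos : 0 < ρ + t * √d + 1 := by positivity
  rw [← vball (0 : EuclideanSpace ℝ (Fin d)) hpos]
  have hsub : (⋃ z ∈ Z (d := d) t ht ρ, cell t z) ⊆
      Metric.ball (0 : EuclideanSpace ℝ (Fin d)) (ρ + t * √d + 1) := by
    intro x hx
    simp only [Set.mem_iUnion] at hx
    obtain ⟨z, hz, hx⟩ := hx
    rw [mem_Z] at hz
    rw [mem_ball_zero_iff]
    have h1 := cell_norm ht hx
    have h2 : x = (x - lv t z) + lv t z := by abel
    rw [h2]
    exact (norm_add_le _ _).trans_lt (by linarith)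
  calc (Z (d := d) t ht ρ).card * t ^ d = ∑ z ∈ Z (d := d) t ht ρ, volume.real (cell t z) := by
        rw [Finset.sum_congr rfl (fun z _ => vol_cell ht z)]
        simp
    _ = volume.real (⋃ z ∈ Z (d := d) t ht ρ, cell t z) := by
        rw [measureReal_biUnion_finset (h := fun z _ => cell_ne_top ht z)]
        · intro z _ z' _ hzz
          exact cell_disjoint ht hzz
        · intro z _
          exact meas_cell t z
    _ ≤ _ := measureReal_mono hsub measure_ball_lt_top.ne

/-- the proportion of the ball of radius `R` covered by the balls -/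
noncomputable def cov (r : ℝ) (X : Set (EuclideanSpace ℝ (Fin d))) (R : ℝ) : ℝ :=
  volume.real (Metric.ball (0 : EuclideanSpace ℝ (Fin d)) R ∩
    ⋃ x ∈ X, Metric.ball x r) / volume.real (Metric.ball (0 : EuclideanSpace ℝ (Fin d)) R)

lemma cov_nonneg (r : ℝ) (X : Set (EuclideanSpace ℝ (Fin d))) (R : ℝ) : 0 ≤ cov r X R := by
  unfold cov; positivity

lemma cov_le_one (r : ℝ) (X : Set (EuclideanSpace ℝ (Fin d))) (R : ℝ) : cov r X R ≤ 1 := by
  unfold cov
  exact div_le_one_of_le₀ (measureReal_mono Set.inter_subset_left measure_ball_lt_top.ne)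
    measureReal_nonneg

lemma density_eq (r : ℝ) (X : Set (EuclideanSpace ℝ (Fin d))) :
    density r X = limsup (cov r X) atTop := rfl

lemma cov_bdd (r : ℝ) (X : Set (EuclideanSpace ℝ (Fin d))) :
    IsBoundedUnder (· ≤ ·) atTop (cov r X) := isBoundedUnder_of ⟨1, cov_le_one r X⟩

lemma cov_cobdd (r : ℝ) (X : Set (EuclideanSpace ℝ (Fin d))) :
    IsCoboundedUnder (· ≤ ·) atTop (cov r X) :=
  (isBoundedUnder_of (r := (· ≥ ·)) ⟨0, cov_nonneg r X⟩).isCoboundedUnder_le

lemma density_le_one (r : ℝ) (X : Set (EuclideanSpace ℝ (Fin d))) : density r X ≤ 1 := by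
  rw [density_eq]
  exact limsup_le_of_le (cov_cobdd r X) (Eventually.of_forall (cov_le_one r X))

lemma density_nonneg (r : ℝ) (X : Set (EuclideanSpace ℝ (Fin d))) : 0 ≤ density r X := by
  rw [density_eq]
  exact le_limsup_of_frequently_le (Eventually.of_forall (cov_nonneg r X)).frequently (cov_bdd r X)

lemma bddAbove_density : BddAbove {δ : ℝ | ∃ (r : ℝ) (X : Set (EuclideanSpace ℝ (Fin d))),
    IsPacking r X ∧ δ = density r X} := by
  refine ⟨1, ?_⟩
  rintro δ ⟨r, X, _, rfl⟩
  exact density_le_one r X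

lemma density_le_theta {r : ℝ} {X : Set (EuclideanSpace ℝ (Fin d))} (h : IsPacking r X) :
    density r X ≤ theta d := le_csSup bddAbove_density ⟨r, X, h, rfl⟩

lemma theta_le_one (d : ℕ) : theta d ≤ 1 := by
  refine csSup_le ⟨density 1 (∅ : Set (EuclideanSpace ℝ (Fin d))), 1, ∅, ⟨one_pos, by simp⟩, rfl⟩ ?_
  rintro δ ⟨r, X, _, rfl⟩
  exact density_le_one r X

lemma theta_nonneg (d : ℕ) : 0 ≤ theta d :=
  (density_nonneg _ _).trans (density_le_theta (r := 1) (X := (∅ : Set (EuclideanSpace ℝ (Fin d))))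
    ⟨one_pos, by simp⟩)

/-- **Finite packing bound.** `N` points of the unit cube with pairwise distances at least `s`. -/
theorem packing_upper (Y : Finset (EuclideanSpace ℝ (Fin d)))
    (hY : (Y : Set (EuclideanSpace ℝ (Fin d))) ⊆ cube d) {s : ℝ} (hs : 0 < s)
    (hsep : ∀ x ∈ Y, ∀ y ∈ Y, x ≠ y → s ≤ dist x y) :
    Y.card * (vol1 d * (s / 2) ^ d) ≤ theta d * (1 + s) ^ d := by
  set t : ℝ := 1 + s with htdef
  have ht : 0 < t := by positivity
  -- distances in the periodic arrangement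
  have key : ∀ y ∈ Y, ∀ y' ∈ Y, ∀ z z' : Fin d → ℤ, (y, z) ≠ (y', z') →
      s ≤ dist (y + lv t z) (y' + lv t z') := by
    intro y hy y' hy' z z' hne
    by_cases hz : z = z'
    · subst hz
      have : y ≠ y' := fun h => hne (by rw [h])
      rw [dist_add_right]
      exact hsep y hy y' hy' this
    · obtain ⟨i, hi⟩ := Function.ne_iff.1 hz
      have h1 := coord_le_norm (y + lv t z - (y' + lv t z')) i
      rw [← dist_eq_norm] at h1
      refine le_trans ?_ h1
      simp only [PiLp.sub_apply, PiLp.add_apply, lv_apply]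
      obtain ⟨a1, a2⟩ := hY hy i
      obtain ⟨a3, a4⟩ := hY hy' i
      have h2 : (1 : ℝ) ≤ |(z i : ℝ) - z' i| := by
        have h3 : (z i) - z' i ≠ 0 := sub_ne_zero.2 hi
        have h4 := Int.one_le_abs h3
        exact_mod_cast h4
      have h5 : |y i + t * (z i : ℝ) - (y' i + t * (z' i : ℝ))|
          ≥ |t * ((z i : ℝ) - z' i)| - |y' i - y i| := by
        have := abs_sub_abs_le_abs_sub (t * ((z i : ℝ) - z' i)) (y' i - y i)
        have e : t * ((z i : ℝ) - z' i) - (y' i - y i)
          = y i + t * (z i : ℝ) - (y' i + t * (z' i : ℝ)) := by ring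
        rw [e] at this
        exact this
      have h6 : |y' i - y i| ≤ 1 := by rw [abs_le]; constructor <;> linarith
      have h7 : t ≤ |t * ((z i : ℝ) - z' i)| := by
        rw [abs_mul, abs_of_pos ht]
        nlinarith
      linarith
  set X : Set (EuclideanSpace ℝ (Fin d)) := {x | ∃ y ∈ Y, ∃ z : Fin d → ℤ, x = y + lv t z} with hX
  have hpack : IsPacking (s / 2) X := by
    refine ⟨by positivity, ?_⟩
    rintro x ⟨y, hy, z, rfl⟩ x' ⟨y', hy', z', rfl⟩ hne
    apply Metric.ball_disjoint_ball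
    have := key y hy y' hy' z z' (fun h => hne (by
      rw [Prod.mk.injEq] at h; rw [h.1, h.2]))
    linarith
  have hdens := density_le_theta hpack
  -- lower bound for the density
  set c : ℝ := Y.card * (vol1 d * (s / 2) ^ d) / t ^ d with hc
  set D : ℝ := √d + s + t * √d with hD
  have hlow : ∀ R : ℝ, D < R → c * ((R - D) / R) ^ d ≤ cov (s / 2) X R := by
    intro R hR
    have hDpos : 0 < D := by positivity
    have hRpos : 0 < R := hDpos.trans hR
    set ρ : ℝ := R - √d - s with hρ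
    have hρt : ρ - t * √d = R - D := by rw [hρ, hD]; ring
    have hZ := Z_lower (d := d) ht (ρ := ρ) (by rw [hρt]; linarith)
    rw [hρt] at hZ
    have hsub : (⋃ p ∈ Y ×ˢ Z (d := d) t ht ρ, Metric.ball (p.1 + lv t p.2) (s / 2)) ⊆
        Metric.ball (0 : EuclideanSpace ℝ (Fin d)) R ∩ ⋃ x ∈ X, Metric.ball x (s / 2) := by
      intro x hx
      simp only [Set.mem_iUnion] at hx
      obtain ⟨⟨y, z⟩, hp, hx⟩ := hx
      rw [Finset.mem_product, mem_Z] at hp
      refine ⟨?_, ?_⟩
      · rw [mem_ball_zero_iff]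
        rw [Metric.mem_ball, dist_eq_norm] at hx
        have h1 := cube_norm (hY hp.1)
        have h2 : x = (x - (y + lv t z)) + (y + lv t z) := by abel
        rw [h2]
        have h3 := norm_add_le (x - (y + lv t z)) (y + lv t z)
        have h4 := norm_add_le y (lv t z)
        have h5 := hp.2
        simp only at hx h1 h5
        linarith
      · simp only [Set.mem_iUnion]
        exact ⟨y + lv t z, ⟨y, hp.1, z, rfl⟩, hx⟩
    have hvol : volume.real (⋃ p ∈ Y ×ˢ Z (d := d) t ht ρ, Metric.ball (p.1 + lv t p.2) (s / 2))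
        = (Y.card * (Z (d := d) t ht ρ).card) * ((s / 2) ^ d * vol1 d) := by
      rw [measureReal_biUnion_finset]
      · rw [Finset.sum_congr rfl (fun p _ => vball (p.1 + lv t p.2) (by positivity : 0 < s / 2))]
        simp [Finset.card_product]
      · rintro ⟨y, z⟩ hp ⟨y', z'⟩ hp' hne
        simp only [Finset.coe_product, Set.mem_prod, Finset.mem_coe] at hp hp'
        apply Metric.ball_disjoint_ball
        have := key y hp.1 y' hp'.1 z z' hne
        linarith
      · intro p _
        exact measurableSet_ball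
    have h1 : (Y.card * (Z (d := d) t ht ρ).card : ℝ) * ((s / 2) ^ d * vol1 d) ≤
        volume.real (Metric.ball (0 : EuclideanSpace ℝ (Fin d)) R ∩
          ⋃ x ∈ X, Metric.ball x (s / 2)) := by
      rw [← hvol]
      exact measureReal_mono hsub (ne_top_of_le_ne_top measure_ball_lt_top.ne
        (measure_mono Set.inter_subset_left))
    unfold cov
    rw [vball _ hRpos, le_div_iff₀ (by have := vol1_pos d; positivity)]
    refine le_trans ?_ h1
    have hV := vol1_pos d
    have e1 : c * ((R - D) / R) ^ d * (R ^ d * vol1 d)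
        = (Y.card * (s / 2) ^ d * vol1 d) / t ^ d * ((R - D) ^ d * vol1 d) := by
      have hR0 : R ^ d ≠ 0 := by positivity
      rw [hc, div_pow (R - D) R d]
      have e0 : (R - D) ^ d / R ^ d * R ^ d = (R - D) ^ d := div_mul_cancel₀ _ hR0
      generalize (R - D) ^ d = A at *
      generalize R ^ d = B at *
      have e3 : Y.card * (vol1 d * (s / 2) ^ d) / t ^ d * (A / B) * (B * vol1 d)
          = (Y.card * (s / 2) ^ d * vol1 d) / t ^ d * vol1 d * (A / B * B) := by ring
      rw [e3, e0]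
      ring
    rw [e1]
    have e2 : (Y.card * (Z (d := d) t ht ρ).card : ℝ) * ((s / 2) ^ d * vol1 d)
        = (Y.card * (s / 2) ^ d * vol1 d) / t ^ d * ((Z (d := d) t ht ρ).card * t ^ d) := by
      field_simp
    rw [e2]
    apply mul_le_mul_of_nonneg_left hZ (by positivity)
  have htend : Tendsto (fun R : ℝ => c * ((R - D) / R) ^ d) atTop (𝓝 (c * 1 ^ d)) := by
    apply Tendsto.const_mul
    apply Tendsto.pow
    have h1 : Tendsto (fun R : ℝ => 1 - D / R) atTop (𝓝 (1 - 0)) :=
      tendsto_const_nhds.sub (tendsto_const_nhds.div_atTop tendsto_id)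
    rw [sub_zero] at h1
    refine h1.congr' ?_
    filter_upwards [eventually_gt_atTop 0] with R hR
    field_simp
  have hle : c ≤ density (s / 2) X := by
    rw [density_eq]
    have h2 : limsup (fun R : ℝ => c * ((R - D) / R) ^ d) atTop = c := by
      rw [htend.limsup_eq]; simp
    rw [← h2]
    apply limsup_le_limsup
    · filter_upwards [eventually_gt_atTop D] with R hR
      exact hlow R hR
    · exact htend.isBoundedUnder_ge.isCoboundedUnder_le
    · exact cov_bdd _ _
  have h3 : c ≤ theta d := hle.trans hdens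
  rw [hc, div_le_iff₀ (by positivity)] at h3
  exact h3

end Pool.Agent.helper55.TSP
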