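import Pool.Agent.helper55.Packing

/-!
From packings of space to finite sets of points in the unit cube.
-/

set_option autoImplicit false

open MeasureTheory Filter Topology

namespace Pool.Agent.helper55.TSP

variable {d : ℕ}

/-- A packing of density larger than `n V (s/2)^d` provides `n` points of the unit cube with
pairwise distances at least `s`. -/
theorem packing_lower {s : ℝ} (hs : 0 < s) {n : ℕ}
    (h : n * (vol1 d * (s / 2) ^ d) < theta d) :
    ∃ Y : Finset (EuclideanSpace ℝ (Fin d)), (Y : Set (EuclideanSpace ℝ (Fin d))) ⊆ cube d ∧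
      Y.card = n ∧ ∀ x ∈ Y, ∀ y ∈ Y, x ≠ y → s ≤ dist x y := by
  classical
  obtain ⟨δ, ⟨r, X, ⟨hr, hX⟩, rfl⟩, hδ⟩ := exists_lt_of_lt_csSup
    (⟨density 1 (∅ : Set (EuclideanSpace ℝ (Fin d))), 1, ∅, ⟨one_pos, by simp⟩, rfl⟩ :
      Set.Nonempty {δ : ℝ | ∃ (r : ℝ) (X : Set (EuclideanSpace ℝ (Fin d))),
        IsPacking r X ∧ δ = density r X}) h
  set t : ℝ := 2 * r / s with htdef
  have ht : 0 < t := by positivity
  have hV := vol1_pos d
  by_cases hcell : ∃ z : Fin d → ℤ, (n : ℕ∞) ≤ (X ∩ cell t z).encard
  · obtain ⟨z, hz⟩ := hcell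
    obtain ⟨F', hF'sub, hF'card⟩ := Set.exists_subset_encard_eq hz
    have hfin : F'.Finite := Set.finite_of_encard_eq_coe hF'card
    have hcardF : hfin.toFinset.card = n := by
      have h1 := hfin.encard_eq_coe_toFinset_card
      rw [hF'card] at h1
      exact_mod_cast h1.symm
    have hinj : Function.Injective (fun x : EuclideanSpace ℝ (Fin d) => t⁻¹ • (x - lv t z)) := by
      intro x y hxy
      have h1 : t⁻¹ • (x - lv t z) = t⁻¹ • (y - lv t z) := hxy
      have h2 := smul_right_injective _ (inv_ne_zero ht.ne') h1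
      exact sub_left_injective h2
    refine ⟨hfin.toFinset.image (fun x => t⁻¹ • (x - lv t z)), ?_, ?_, ?_⟩
    · intro y hy
      simp only [Finset.coe_image, Set.mem_image, Finset.mem_coe, Set.Finite.mem_toFinset] at hy
      obtain ⟨x, hx, rfl⟩ := hy
      intro i
      obtain ⟨h1, h2⟩ := (hF'sub hx).2 i
      simp only [PiLp.smul_apply, PiLp.sub_apply, lv_apply, smul_eq_mul]
      rw [inv_mul_eq_div]
      constructor
      · apply div_nonneg _ ht.le
        linarith
      · rw [div_le_one ht]
        linarith
    · rw [Finset.card_image_of_injective _ hinj, hcardF]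
    · intro y hy y' hy' hne
      simp only [Finset.mem_image, Set.Finite.mem_toFinset] at hy hy'
      obtain ⟨x, hx, rfl⟩ := hy
      obtain ⟨x', hx', rfl⟩ := hy'
      have hxx : x ≠ x' := fun hcon => hne (by rw [hcon])
      have h1 := hX x (hF'sub hx).1 x' (hF'sub hx').1 hxx
      rw [disjoint_ball_ball_iff hr hr] at h1
      rw [dist_smul₀, dist_sub_right, Real.norm_eq_abs, abs_of_pos (inv_pos.2 ht),
        inv_mul_eq_div, le_div_iff₀ ht, htdef]
      have h2 : s * (2 * r / s) = 2 * r := by field_simp
      linarith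
  · exfalso
    push Not at hcell
    have hfin : ∀ z, (X ∩ cell t z).Finite := fun z =>
      Set.finite_of_encard_le_coe (hcell z).le
    have hcard : ∀ z, ((hfin z).toFinset.card : ℝ) ≤ n := by
      intro z
      have h1 := (hfin z).encard_eq_coe_toFinset_card
      have h2 := hcell z
      rw [h1] at h2
      have h3 : (hfin z).toFinset.card < n := by exact_mod_cast h2
      exact_mod_cast h3.le
    set D : ℝ := r + t * √d + t * √d + 1 with hD
    have hDpos : 0 < D := by positivity
    have hup : ∀ R : ℝ, 0 < R →
        cov r X R ≤ n * (vol1 d * (s / 2) ^ d) * ((R + D) / R) ^ d := by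
      intro R hR
      set ρ : ℝ := R + r + t * √d with hρ
      have hZ := Z_upper (d := d) ht (ρ := ρ) (by positivity)
      have hρt : ρ + t * √d + 1 = R + D := by rw [hρ, hD]; ring
      rw [hρt] at hZ
      have hsub : (Metric.ball (0 : EuclideanSpace ℝ (Fin d)) R ∩ ⋃ x ∈ X, Metric.ball x r) ⊆
          ⋃ z ∈ Z (d := d) t ht ρ, ⋃ x ∈ (hfin z).toFinset, Metric.ball x r := by
        rintro y ⟨hy1, hy2⟩
        simp only [Set.mem_iUnion] at hy2 ⊢
        obtain ⟨x, hx, hyx⟩ := hy2
        refine ⟨idx t x, ?_, x, ?_, hyx⟩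
        · rw [mem_Z]
          have h1 := cell_norm ht (mem_cell_idx ht x)
          have h2 : lv t (idx t x) = y - (y - x) - (x - lv t (idx t x)) := by abel
          rw [h2]
          rw [mem_ball_zero_iff] at hy1
          rw [Metric.mem_ball, dist_eq_norm] at hyx
          have h3 := norm_sub_le (y - (y - x)) (x - lv t (idx t x))
          have h4 := norm_sub_le y (y - x)
          linarith
        · rw [Set.Finite.mem_toFinset]
          exact ⟨hx, mem_cell_idx ht x⟩
      have hne : volume (⋃ z ∈ Z (d := d) t ht ρ, ⋃ x ∈ (hfin z).toFinset, Metric.ball x r) ≠ ⊤ := by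
        refine ne_top_of_le_ne_top ?_ (measure_biUnion_finset_le _ _)
        rw [ENNReal.sum_ne_top]
        intro z _
        refine ne_top_of_le_ne_top ?_ (measure_biUnion_finset_le _ _)
        rw [ENNReal.sum_ne_top]
        intro x _
        exact measure_ball_lt_top.ne
      have h1 : volume.real (Metric.ball (0 : EuclideanSpace ℝ (Fin d)) R ∩
          ⋃ x ∈ X, Metric.ball x r) ≤ (Z (d := d) t ht ρ).card * (n * (r ^ d * vol1 d)) := by
        calc _ ≤ volume.real (⋃ z ∈ Z (d := d) t ht ρ,
                  ⋃ x ∈ (hfin z).toFinset, Metric.ball x r) := measureReal_mono hsub hne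
          _ ≤ ∑ z ∈ Z (d := d) t ht ρ, volume.real (⋃ x ∈ (hfin z).toFinset, Metric.ball x r) :=
              measureReal_biUnion_finset_le _ _
          _ ≤ ∑ z ∈ Z (d := d) t ht ρ, n * (r ^ d * vol1 d) := by
              apply Finset.sum_le_sum
              intro z _
              calc _ ≤ ∑ x ∈ (hfin z).toFinset, volume.real (Metric.ball x r) :=
                    measureReal_biUnion_finset_le _ _
                _ = (hfin z).toFinset.card * (r ^ d * vol1 d) := by
                    rw [Finset.sum_congr rfl (fun x _ => vball x hr)]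
                    simp
                _ ≤ n * (r ^ d * vol1 d) := by
                    apply mul_le_mul_of_nonneg_right (hcard z) (by positivity)
          _ = _ := by simp
      unfold cov
      rw [vball _ hR, div_le_iff₀ (by positivity)]
      refine h1.trans ?_
      have hRd : R ^ d ≠ 0 := by positivity
      have e1 : n * (vol1 d * (s / 2) ^ d) * ((R + D) / R) ^ d * (R ^ d * vol1 d)
          = (n * vol1 d * (s / 2) ^ d) * ((R + D) ^ d * vol1 d) := by
        rw [div_pow (R + D) R d]
        have e0 : (R + D) ^ d / R ^ d * R ^ d = (R + D) ^ d := div_mul_cancel₀ _ hRd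
        generalize (R + D) ^ d = A at *
        generalize R ^ d = B at *
        have e3 : n * (vol1 d * (s / 2) ^ d) * (A / B) * (B * vol1 d)
            = (n * vol1 d * (s / 2) ^ d) * (A / B * B * vol1 d) := by ring
        rw [e3, e0]
      have hst : s / 2 * t = r := by rw [htdef]; field_simp
      have e2 : ((Z (d := d) t ht ρ).card : ℝ) * (n * (r ^ d * vol1 d))
          = (n * vol1 d * (s / 2) ^ d) * ((Z (d := d) t ht ρ).card * t ^ d) := by
        rw [← hst, mul_pow]
        ring
      rw [e1, e2]
      exact mul_le_mul_of_nonneg_left hZ (by positivity)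
    have htend : Tendsto (fun R : ℝ => n * (vol1 d * (s / 2) ^ d) * ((R + D) / R) ^ d) atTop
        (𝓝 (n * (vol1 d * (s / 2) ^ d) * 1 ^ d)) := by
      apply Tendsto.const_mul
      apply Tendsto.pow
      have h1 : Tendsto (fun R : ℝ => 1 + D / R) atTop (𝓝 (1 + 0)) :=
        tendsto_const_nhds.add (tendsto_const_nhds.div_atTop tendsto_id)
      rw [add_zero] at h1
      refine h1.congr' ?_
      filter_upwards [eventually_gt_atTop 0] with R hR
      field_simp
    have hle : density r X ≤ n * (vol1 d * (s / 2) ^ d) := by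
      rw [density_eq]
      have h2 : limsup (fun R : ℝ => n * (vol1 d * (s / 2) ^ d) * ((R + D) / R) ^ d) atTop
          = n * (vol1 d * (s / 2) ^ d) := by
        rw [htend.limsup_eq]; simp
      rw [← h2]
      apply limsup_le_limsup
      · filter_upwards [eventually_gt_atTop 0] with R hR
        exact hup R hR
      · exact cov_cobdd _ _
      · exact htend.isBoundedUnder_le
    linarith

end Pool.Agent.helper55.TSP
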