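import Mathlib

/-!
Definitions: worst-case Euclidean travelling salesman constant and sphere packing density.
-/

set_option autoImplicit false

open MeasureTheory Filter Topology

namespace Pool.Agent.helper55.TSP

/-- The unit cube `[0,1]^d`. -/
def cube (d : ℕ) : Set (EuclideanSpace ℝ (Fin d)) := {x | ∀ i, 0 ≤ x i ∧ x i ≤ 1}

/-- The length of the closed tour `p 0, p 1, …, p (n-1), p 0`: the sum of its `n` edge lengths. -/
noncomputable def tourLength {d n : ℕ} (p : Fin n → EuclideanSpace ℝ (Fin d)) : ℝ :=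
  ∑ i : Fin n, dist (p i) (p (finRotate n i))

/-- `T(S)`: the minimum length of a closed tour visiting every point of `S` exactly once. -/
noncomputable def minTour {d : ℕ} (S : Finset (EuclideanSpace ℝ (Fin d))) : ℝ :=
  sInf {ℓ : ℝ | ∃ p : Fin S.card → EuclideanSpace ℝ (Fin d),
    Function.Injective p ∧ Set.range p = (S : Set (EuclideanSpace ℝ (Fin d))) ∧
      ℓ = tourLength p}

/-- `L_d(n)`: the supremum of `T(S)` over the `n`-point subsets `S` of the unit cube. -/
noncomputable def worstTour (d n : ℕ) : ℝ :=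
  sSup {ℓ : ℝ | ∃ S : Finset (EuclideanSpace ℝ (Fin d)),
    (S : Set (EuclideanSpace ℝ (Fin d))) ⊆ cube d ∧ S.card = n ∧ ℓ = minTour S}

/-- `α_d = limsup_n L_d(n) / n^((d-1)/d)`. -/
noncomputable def alpha (d : ℕ) : ℝ :=
  limsup (fun n : ℕ => worstTour d n / (n : ℝ) ^ (((d : ℝ) - 1) / d)) atTop

/-- `α'_d = α_d / √d`. -/
noncomputable def alpha' (d : ℕ) : ℝ := alpha d / √d

/-- `X` is the set of centres of a packing of (open) balls of radius `r > 0` in `ℝ^d`. -/
def IsPacking {d : ℕ} (r : ℝ) (X : Set (EuclideanSpace ℝ (Fin d))) : Prop :=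
  0 < r ∧ ∀ x ∈ X, ∀ y ∈ X, x ≠ y → Disjoint (Metric.ball x r) (Metric.ball y r)

/-- The (upper) density of the union of the balls of radius `r` with centres in `X`:
the limsup as `R → ∞` of the proportion of the ball of radius `R` about the origin which
is covered. -/
noncomputable def density {d : ℕ} (r : ℝ) (X : Set (EuclideanSpace ℝ (Fin d))) : ℝ :=
  limsup (fun R : ℝ => volume.real (Metric.ball (0 : EuclideanSpace ℝ (Fin d)) R ∩
    ⋃ x ∈ X, Metric.ball x r) / volume.real (Metric.ball (0 : EuclideanSpace ℝ (Fin d)) R)) atTop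

/-- `θ_d`: the maximal density of a packing of equal balls in `ℝ^d`. -/
noncomputable def theta (d : ℕ) : ℝ :=
  sSup {δ : ℝ | ∃ (r : ℝ) (X : Set (EuclideanSpace ℝ (Fin d))), IsPacking r X ∧ δ = density r X}

end Pool.Agent.helper55.TSP
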