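import Mathlib

/-!
Greedy merging of path fragments.
-/

set_option autoImplicit false

namespace Pool.Agent.helper55.TSP

variable {E : Type*} [MetricSpace E]

/-- length of the open path through the points of a list -/
noncomputable def pl : List E → ℝ
  | [] => 0
  | [_] => 0
  | a :: b :: t => dist a b + pl (b :: t)

lemma pl_cons_cons (a b : E) (t : List E) : pl (a :: b :: t) = dist a b + pl (b :: t) := rfl

lemma pl_append_cons (l : List E) (a b : E) (t : List E) :
    pl (l ++ a :: b :: t) = pl (l ++ [a]) + dist a b + pl (b :: t) := by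
  induction l with
  | nil => simp [pl]
  | cons c l ih =>
    cases l with
    | nil =>
      simp only [List.nil_append, List.cons_append, pl] at ih ⊢
      linarith
    | cons e l =>
      simp only [List.cons_append, pl] at ih ⊢
      linarith

lemma pl_reverse (l : List E) : pl l.reverse = pl l := by
  induction l with
  | nil => rfl
  | cons a l ih =>
    cases l with
    | nil => rfl
    | cons b t =>
      have h1 : (a :: b :: t).reverse = t.reverse ++ b :: a :: [] := by simp
      have h2 : (b :: t).reverse = t.reverse ++ [b] := by simp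
      rw [h1, pl_append_cons, ← h2, ih, pl_cons_cons, dist_comm a b]
      simp [pl]
      ring

/-- joining two paths at their heads -/
lemma pl_join (a b : E) (t u : List E) :
    pl ((a :: t).reverse ++ (b :: u)) = pl (a :: t) + dist a b + pl (b :: u) := by
  have h1 : (a :: t).reverse ++ (b :: u) = t.reverse ++ a :: b :: u := by simp
  rw [h1, pl_append_cons]
  have h2 : t.reverse ++ [a] = (a :: t).reverse := by simp
  rw [h2, pl_reverse]

/-- the path of a fragment -/
def frag (p : E × List E) : List E := p.1 :: p.2

lemma map_fst_sublist (L : List (E × List E)) :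
    (L.map Prod.fst).Sublist (L.flatMap frag) := by
  induction L with
  | nil => simp
  | cons p L ih =>
    simp only [List.map_cons, List.flatMap_cons, frag, List.cons_append]
    exact (ih.trans (List.sublist_append_right _ _)).cons_cons _

theorem merge (ρ : ℕ → ℝ) (S : Set E)
    (hρ : ∀ F : Finset E, (F : Set E) ⊆ S → 2 ≤ F.card →
      ∃ x ∈ F, ∃ y ∈ F, x ≠ y ∧ dist x y ≤ ρ F.card) :
    ∀ (k : ℕ) (L : List (E × List E)), L.length = k + 1 → (L.flatMap frag).Nodup →
      (∀ x ∈ L.flatMap frag, x ∈ S) →
      ∃ l : List E, l.Perm (L.flatMap frag) ∧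
        pl l ≤ (L.map (fun p => pl (frag p))).sum + ∑ j ∈ Finset.Icc 2 (k + 1), ρ j := by
  classical
  intro k
  induction k with
  | zero =>
    intro L hL _ _
    obtain ⟨p, rfl⟩ := List.length_eq_one_iff.1 hL
    exact ⟨frag p, by simp, by simp⟩
  | succ k ih =>
    intro L hL hnd hS
    have hsub := map_fst_sublist L
    have hnd1 : (L.map Prod.fst).Nodup := hnd.sublist hsub
    set F : Finset E := (L.map Prod.fst).toFinset with hF
    have hcard : F.card = k + 2 := by
      rw [hF, List.toFinset_card_of_nodup hnd1, List.length_map, hL]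
    have hFS : (F : Set E) ⊆ S := by
      intro x hx
      apply hS
      apply hsub.subset
      simpa [hF] using hx
    obtain ⟨x, hx, y, hy, hxy, hd⟩ := hρ F hFS (by omega)
    rw [hcard] at hd
    obtain ⟨p, hp, rfl⟩ : ∃ p ∈ L, p.1 = x := by
      rw [hF, List.mem_toFinset, List.mem_map] at hx
      exact hx
    obtain ⟨q, hq, rfl⟩ : ∃ q ∈ L, q.1 = y := by
      rw [hF, List.mem_toFinset, List.mem_map] at hy
      exact hy
    have hpq : q ≠ p := fun h => hxy (by rw [h])
    have hq' : q ∈ L.erase p := (List.mem_erase_of_ne hpq).2 hq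
    have hperm : L.Perm (p :: q :: (L.erase p).erase q) :=
      (List.perm_cons_erase hp).trans ((List.perm_cons_erase hq').cons p)
    set L' := (L.erase p).erase q with hL'
    obtain ⟨c, v, hcv⟩ : ∃ c v, (frag p).reverse ++ frag q = c :: v := by
      rcases h : (frag p).reverse ++ frag q with _ | ⟨c, v⟩
      · simp [frag] at h
      · exact ⟨c, v, rfl⟩
    have hpf : (L.flatMap frag).Perm (((c, v) :: L').flatMap frag) := by
      refine (hperm.flatMap_right frag).trans ?_
      simp only [List.flatMap_cons]
      have h1 : frag (c, v) = (frag p).reverse ++ frag q := by rw [hcv]; rfl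
      rw [h1, ← List.append_assoc]
      exact ((List.reverse_perm (frag p)).symm.append_right _).append_right _
    have hlen : ((c, v) :: L').length = k + 1 := by
      have := hperm.length_eq
      simp only [List.length_cons] at this ⊢
      omega
    obtain ⟨l, hl1, hl2⟩ := ih ((c, v) :: L') hlen (hpf.nodup_iff.1 hnd)
      (fun x hx => hS x (hpf.mem_iff.2 hx))
    refine ⟨l, hl1.trans hpf.symm, ?_⟩
    have hsum : (L.map (fun p => pl (frag p))).sum
        = pl (frag p) + (pl (frag q) + (L'.map (fun p => pl (frag p))).sum) := by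
      rw [(hperm.map _).sum_eq]
      simp
    have hsum' : (((c, v) :: L').map (fun p => pl (frag p))).sum
        = (pl (frag p) + dist p.1 q.1 + pl (frag q)) + (L'.map (fun p => pl (frag p))).sum := by
      simp only [List.map_cons, List.sum_cons]
      congr 1
      have h1 : frag (c, v) = (frag p).reverse ++ frag q := by rw [hcv]; rfl
      rw [h1]
      exact pl_join p.1 q.1 p.2 q.2
    rw [hsum'] at hl2
    rw [hsum, Finset.sum_Icc_succ_top (by omega)]
    linarith

/-- every finite subset of `S` has a Hamiltonian path of length at most `∑ ρ j` -/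
theorem exists_path (ρ : ℕ → ℝ) (S : Set E)
    (hρ : ∀ F : Finset E, (F : Set E) ⊆ S → 2 ≤ F.card →
      ∃ x ∈ F, ∃ y ∈ F, x ≠ y ∧ dist x y ≤ ρ F.card)
    (F : Finset E) (hF : (F : Set E) ⊆ S) (hne : F.Nonempty) :
    ∃ l : List E, l.Nodup ∧ (∀ x, x ∈ l ↔ x ∈ F) ∧ pl l ≤ ∑ j ∈ Finset.Icc 2 F.card, ρ j := by
  classical
  have hpos := hne.card_pos
  set L : List (E × List E) := F.toList.map (fun x => (x, [])) with hL
  have hflat : L.flatMap frag = F.toList := by
    rw [hL]
    generalize F.toList = M
    induction M with
    | nil => rfl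
    | cons a M ih => simp only [List.map_cons, List.flatMap_cons, ih]; rfl
  have hlen : L.length = (F.card - 1) + 1 := by
    rw [hL, List.length_map, Finset.length_toList]; omega
  obtain ⟨l, hl1, hl2⟩ := merge ρ S hρ (F.card - 1) L hlen
    (by rw [hflat]; exact F.nodup_toList)
    (fun x hx => hF (by rw [hflat] at hx; simpa using hx))
  have hzero : (L.map (fun p => pl (frag p))).sum = 0 := by
    rw [hL]
    generalize F.toList = M
    induction M with
    | nil => rfl
    | cons a M ih =>
      simp only [List.map_cons, List.sum_cons, ih]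
      simp [frag, pl]
  rw [hflat] at hl1
  rw [hzero, zero_add, Nat.sub_add_cancel hpos] at hl2
  exact ⟨l, hl1.nodup_iff.2 F.nodup_toList, fun x => by rw [hl1.mem_iff]; simp, hl2⟩

end Pool.Agent.helper55.TSP
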