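import Pool.Agent.helper55.PackingLower
import Pool.Agent.helper55.TSPGreedy

/-!
Tours: from lists to closed tours; bounds for the worst tour length.
-/

set_option autoImplicit false

open MeasureTheory Filter Topology

namespace Pool.Agent.helper55.TSP

variable {d : ℕ}

lemma pl_ofFn {E : Type*} [MetricSpace E] : ∀ (n : ℕ) (q : Fin (n + 1) → E),
    pl (List.ofFn q) = ∑ i : Fin n, dist (q i.castSucc) (q i.succ) := by
  intro n
  induction n with
  | zero => intro q; simp [pl]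
  | succ n ih =>
    intro q
    rw [List.ofFn_succ, List.ofFn_succ, pl_cons_cons]
    have h1 := ih (fun i => q i.succ)
    rw [List.ofFn_succ] at h1
    rw [h1, Fin.sum_univ_succ]
    rfl

lemma tourLength_succ (n : ℕ) (q : Fin (n + 1) → EuclideanSpace ℝ (Fin d)) :
    tourLength q = pl (List.ofFn q) + dist (q (Fin.last n)) (q 0) := by
  unfold tourLength
  rw [Fin.sum_univ_castSucc, pl_ofFn]
  congr 1
  · apply Finset.sum_congr rfl
    intro i _
    rw [finRotate_apply, Fin.coeSucc_eq_succ]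
  · rw [finRotate_last]

lemma tourLength_le (D : ℝ) : ∀ (m : ℕ) (_ : 0 < m) (q : Fin m → EuclideanSpace ℝ (Fin d)),
    (∀ i j, dist (q i) (q j) ≤ D) → tourLength q ≤ pl (List.ofFn q) + D := by
  intro m hm q hq
  cases m with
  | zero => exact absurd hm (lt_irrefl 0)
  | succ n =>
    rw [tourLength_succ]
    linarith [hq (Fin.last n) 0]

lemma tourLength_nonneg {n : ℕ} (p : Fin n → EuclideanSpace ℝ (Fin d)) : 0 ≤ tourLength p :=
  Finset.sum_nonneg fun _ _ => dist_nonneg

lemma minTour_set_nonempty (S : Finset (EuclideanSpace ℝ (Fin d))) :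
    {ℓ : ℝ | ∃ p : Fin S.card → EuclideanSpace ℝ (Fin d),
    Function.Injective p ∧ Set.range p = (S : Set (EuclideanSpace ℝ (Fin d))) ∧
      ℓ = tourLength p}.Nonempty := by
  refine ⟨_, fun i => ((S.equivFin).symm i : EuclideanSpace ℝ (Fin d)), ?_, ?_, rfl⟩
  · intro i j hij
    exact (S.equivFin).symm.injective (Subtype.ext hij)
  · ext x
    simp only [Set.mem_range, Finset.mem_coe]
    constructor
    · rintro ⟨i, rfl⟩
      exact ((S.equivFin).symm i).2
    · intro hx
      exact ⟨S.equivFin ⟨x, hx⟩, by simp⟩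

lemma minTour_nonneg (S : Finset (EuclideanSpace ℝ (Fin d))) : 0 ≤ minTour S := by
  apply Real.sInf_nonneg
  rintro ℓ ⟨p, _, _, rfl⟩
  exact tourLength_nonneg p

lemma minTour_le {S : Finset (EuclideanSpace ℝ (Fin d))} {p : Fin S.card → EuclideanSpace ℝ (Fin d)}
    (h1 : Function.Injective p) (h2 : Set.range p = (S : Set (EuclideanSpace ℝ (Fin d)))) :
    minTour S ≤ tourLength p := by
  apply csInf_le
  · refine ⟨0, ?_⟩
    rintro ℓ ⟨p, _, _, rfl⟩
    exact tourLength_nonneg p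
  · exact ⟨p, h1, h2, rfl⟩

lemma minTour_le_card {S : Finset (EuclideanSpace ℝ (Fin d))}
    (hS : (S : Set (EuclideanSpace ℝ (Fin d))) ⊆ cube d) : minTour S ≤ S.card * √d := by
  obtain ⟨ℓ, p, h1, h2, h3⟩ := minTour_set_nonempty S
  refine (minTour_le h1 h2).trans ?_
  have hmem : ∀ i, p i ∈ cube d := fun i => hS (by rw [← h2]; exact ⟨i, rfl⟩)
  calc tourLength p ≤ ∑ _i : Fin S.card, √d :=
        Finset.sum_le_sum fun i _ => cube_dist (hmem _) (hmem _)
    _ = S.card * √d := by simp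

/-- the greedy upper bound -/
theorem minTour_greedy (ρ : ℕ → ℝ)
    (hρ : ∀ F : Finset (EuclideanSpace ℝ (Fin d)), (F : Set (EuclideanSpace ℝ (Fin d))) ⊆ cube d →
      2 ≤ F.card → ∃ x ∈ F, ∃ y ∈ F, x ≠ y ∧ dist x y ≤ ρ F.card)
    (S : Finset (EuclideanSpace ℝ (Fin d)))
    (hS : (S : Set (EuclideanSpace ℝ (Fin d))) ⊆ cube d) (hpos : 0 < S.card) :
    minTour S ≤ ∑ j ∈ Finset.Icc 2 S.card, ρ j + √d := by
  classical
  obtain ⟨l, hnd, hmem, hpl⟩ := exists_path ρ (cube d) hρ S hS (Finset.card_pos.1 hpos)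
  have hlen : S.card = l.length := by
    have h1 : l.toFinset = S := by ext x; simp [hmem]
    rw [← h1, List.toFinset_card_of_nodup hnd]
  set q : Fin S.card → EuclideanSpace ℝ (Fin d) := fun i => l.get (i.cast hlen) with hq
  have hof : List.ofFn q = l := by
    apply List.ext_getElem
    · simp [hlen]
    · intro i h1 h2
      simp [hq]
  have hinj : Function.Injective q := by
    intro i j hij
    have h1 := (List.nodup_iff_injective_get.1 hnd) hij
    exact Fin.cast_injective hlen h1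
  have hrange : Set.range q = (S : Set (EuclideanSpace ℝ (Fin d))) := by
    ext x
    rw [← List.mem_ofFn' , hof, hmem]
    rfl
  refine (minTour_le hinj hrange).trans ?_
  have h1 := tourLength_le (d := d) (√d) S.card hpos q (fun i j => by
    apply cube_dist
    · exact hS (by rw [← hrange]; exact ⟨i, rfl⟩)
    · exact hS (by rw [← hrange]; exact ⟨j, rfl⟩))
  rw [hof] at h1
  linarith

/-- the separation lower bound -/
theorem le_minTour {S : Finset (EuclideanSpace ℝ (Fin d))} {s : ℝ} (hcard : 2 ≤ S.card)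
    (hsep : ∀ x ∈ S, ∀ y ∈ S, x ≠ y → s ≤ dist x y) : S.card * s ≤ minTour S := by
  apply le_csInf (minTour_set_nonempty S)
  rintro ℓ ⟨p, h1, h2, rfl⟩
  calc S.card * s = ∑ _i : Fin S.card, s := by simp
    _ ≤ tourLength p := by
      apply Finset.sum_le_sum
      intro i _
      apply hsep
      · have : p i ∈ (S : Set (EuclideanSpace ℝ (Fin d))) := by rw [← h2]; exact ⟨i, rfl⟩
        exact this
      · have : p (finRotate _ i) ∈ (S : Set (EuclideanSpace ℝ (Fin d))) := by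
          rw [← h2]; exact ⟨_, rfl⟩
        exact this
      · intro hcon
        have h3 := h1 hcon
        generalize S.card = m at *
        obtain ⟨n, rfl⟩ : ∃ n, m = n + 2 := ⟨m - 2, by omega⟩
        rw [finRotate_apply] at h3
        have h4 : (1 : Fin (n + 1 + 1)) = 0 := by
          have := congrArg (fun x => x - i) h3
          simpa using this.symm
        exact absurd h4 (by simp)

lemma worst_bddAbove (d n : ℕ) : BddAbove {ℓ : ℝ | ∃ S : Finset (EuclideanSpace ℝ (Fin d)),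
    (S : Set (EuclideanSpace ℝ (Fin d))) ⊆ cube d ∧ S.card = n ∧ ℓ = minTour S} := by
  refine ⟨n * √d, ?_⟩
  rintro ℓ ⟨S, hS, rfl, rfl⟩
  exact minTour_le_card hS

lemma worst_nonneg (d n : ℕ) : 0 ≤ worstTour d n := by
  apply Real.sSup_nonneg
  rintro ℓ ⟨S, hS, rfl, rfl⟩
  exact minTour_nonneg S

lemma le_worst {d : ℕ} {S : Finset (EuclideanSpace ℝ (Fin d))}
    (hS : (S : Set (EuclideanSpace ℝ (Fin d))) ⊆ cube d) : minTour S ≤ worstTour d S.card :=
  le_csSup (worst_bddAbove d S.card) ⟨S, hS, rfl, rfl⟩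

theorem worst_lower {s : ℝ} (hs : 0 < s) {n : ℕ} (hn : 2 ≤ n)
    (h : n * (vol1 d * (s / 2) ^ d) < theta d) : n * s ≤ worstTour d n := by
  obtain ⟨Y, hY, rfl, hsep⟩ := packing_lower hs h
  exact (le_minTour hn hsep).trans (le_worst hY)

theorem worst_upper (ρ : ℕ → ℝ)
    (hρ : ∀ F : Finset (EuclideanSpace ℝ (Fin d)), (F : Set (EuclideanSpace ℝ (Fin d))) ⊆ cube d →
      2 ≤ F.card → ∃ x ∈ F, ∃ y ∈ F, x ≠ y ∧ dist x y ≤ ρ F.card)
    {n : ℕ} (hn : 0 < n) (hpos : 0 ≤ ∑ j ∈ Finset.Icc 2 n, ρ j) :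
    worstTour d n ≤ ∑ j ∈ Finset.Icc 2 n, ρ j + √d := by
  apply Real.sSup_le
  · rintro ℓ ⟨S, hS, rfl, rfl⟩
    exact minTour_greedy ρ hρ S hS hn
  · positivity

/-- the closest pair of a finite set -/
lemma closest_pair (F : Finset (EuclideanSpace ℝ (Fin d))) (hF : 2 ≤ F.card) :
    ∃ x ∈ F, ∃ y ∈ F, x ≠ y ∧ ∀ x' ∈ F, ∀ y' ∈ F, x' ≠ y' → dist x y ≤ dist x' y' := by
  classical
  have hne : F.offDiag.Nonempty := by
    obtain ⟨x, hx, y, hy, hxy⟩ := Finset.one_lt_card.1 (by omega : 1 < F.card)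
    exact ⟨(x, y), by simp [hx, hy, hxy]⟩
  obtain ⟨p, hp, hmin⟩ := Finset.exists_min_image F.offDiag (fun p => dist p.1 p.2) hne
  rw [Finset.mem_offDiag] at hp
  exact ⟨p.1, hp.1, p.2, hp.2.1, hp.2.2, fun x' hx' y' hy' hne' =>
    hmin (x', y') (by simp [hx', hy', hne'])⟩

/-- `2 (θ_d / V_d)^{1/d}` -/
noncomputable def kap (d : ℕ) : ℝ := 2 * (theta d / vol1 d) ^ ((1 : ℝ) / d)

lemma kap_nonneg (d : ℕ) : 0 ≤ kap d := by
  unfold kap
  have := theta_nonneg d
  have := vol1_pos d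
  positivity

lemma kap_pow (hd : d ≠ 0) : vol1 d * (kap d / 2) ^ d = theta d := by
  have h1 := theta_nonneg d
  have h2 := vol1_pos d
  unfold kap
  rw [mul_div_cancel_left₀ _ two_ne_zero, ← Real.rpow_natCast, ← Real.rpow_mul (by positivity),
    one_div_mul_cancel (by exact_mod_cast hd), Real.rpow_one]
  field_simp

/-- separation bound for sets of `k` points in the cube -/
lemma sep_upper (hd : d ≠ 0) (F : Finset (EuclideanSpace ℝ (Fin d)))
    (hF : (F : Set (EuclideanSpace ℝ (Fin d))) ⊆ cube d) {s : ℝ} (hs : 0 < s)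
    (hsep : ∀ x ∈ F, ∀ y ∈ F, x ≠ y → s ≤ dist x y) :
    s * (F.card : ℝ) ^ ((1 : ℝ) / d) ≤ kap d * (1 + s) := by
  have h := packing_upper F hF hs hsep
  rw [← kap_pow hd] at h
  have hV := vol1_pos d
  have hk := kap_nonneg d
  have h1 : (F.card : ℝ) * s ^ d ≤ (kap d * (1 + s)) ^ d := by
    rw [mul_pow]
    have e1 : F.card * (vol1 d * (s / 2) ^ d) = (vol1 d / 2 ^ d) * (F.card * s ^ d) := by
      rw [div_pow]; ring
    have e2 : vol1 d * (kap d / 2) ^ d * (1 + s) ^ d
        = (vol1 d / 2 ^ d) * (kap d ^ d * (1 + s) ^ d) := by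
      rw [div_pow]; ring
    rw [e1, e2] at h
    exact le_of_mul_le_mul_left h (by positivity)
  have h2 : ((F.card : ℝ) ^ ((1 : ℝ) / d)) ^ d = F.card := by
    rw [← Real.rpow_natCast, ← Real.rpow_mul (by positivity),
      one_div_mul_cancel (by exact_mod_cast hd), Real.rpow_one]
  have h3 : (s * (F.card : ℝ) ^ ((1 : ℝ) / d)) ^ d ≤ (kap d * (1 + s)) ^ d := by
    rw [mul_pow, h2]
    linarith
  exact (pow_le_pow_iff_left₀ (by positivity) (by positivity) hd).1 h3

end Pool.Agent.helper55.TSP
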